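import Pool.Agent.K3h34.DL.Space

set_option autoImplicit false

/-!
# Zero-free half-planes
-/

namespace Pool.Agent.K3h34.DL

open Complex Filter Topology MeasureTheory Set
open Pool.Agent.K3h34.DX (Ent cnt HBz EE EE_HB sh FF FF_sh)

noncomputable section

variable {X : ℂ → ℂ}

/-- if all zeros of `X` are within `h` of the line, those of `FE` are on it -/
lemma on_line (hX : XS X) {h : ℝ} (hh : 0 < h) (hb : ∀ b : ℂ, X b = 0 → |b.re| ≤ h) {E : ℂ → ℂ} (hE : HBz E) {z : ℂ}
    (hz : FE X E h z = 0) : z.re = 0 := by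
  have hst : ∀ z : ℂ, 0 < z.re → ‖X (z - h)‖ < ‖X (z + h)‖ := by
    intro z hz
    apply strict' hX hz hh
    intro b hb0
    have h1 : b.re ^ 2 ≤ h ^ 2 := by
      rw [← sq_abs]
      exact pow_le_pow_left₀ (abs_nonneg _) (hb b hb0) 2
    have h2 : 0 < z.re ^ 2 := by positivity
    nlinarith [sq_nonneg (z.im - b.im)]
  have key : ∀ z : ℂ, 0 < z.re → FE X E h z ≠ 0 := by
    intro z hz h0
    have h1 := hst z hz
    have h2 : ‖sh E z‖ ≤ ‖E z‖ := by
      unfold sh
      rw [Complex.norm_conj]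
      exact hE.le z hz
    have h3 : 0 < ‖E z‖ := norm_pos_iff.2 (hE.ne z hz.le)
    rw [FE_eq hX] at h0
    have h4 : E z * X (z + h) = -((starRingEnd ℂ) (E (-(starRingEnd ℂ) z)) * X (z - h)) := by
      linear_combination h0
    have h5 := congrArg norm h4
    rw [norm_neg, norm_mul, norm_mul] at h5
    have h6 : ‖(starRingEnd ℂ) (E (-(starRingEnd ℂ) z))‖ = ‖sh E z‖ := rfl
    rw [h6] at h5
    have h7 : ‖sh E z‖ * ‖X (z - h)‖ ≤ ‖E z‖ * ‖X (z - h)‖ := mul_le_mul_of_nonneg_right h2 (norm_nonneg _)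
    have h8 : ‖E z‖ * ‖X (z - h)‖ < ‖E z‖ * ‖X (z + h)‖ := mul_lt_mul_of_pos_left h1 h3
    linarith
  by_contra hne
  rcases lt_or_gt_of_ne hne with h | h
  · refine key (-(starRingEnd ℂ) z) (by simpa using h) ?_
    unfold FE at hz ⊢
    rw [← FF_sh, hz, map_zero]
  · exact key z h hz

/-- zero-free half-planes in terms of all the combinations `e^{iθ} X(z + h) + e^{-iθ} X(z - h)` -/
theorem half_plane_iff (hX : XS X) {h : ℝ} (hh : 0 < h) : (∀ b : ℂ, X b = 0 → |b.re| ≤ h) ↔
    ∀ (θ : ℝ) (z : ℂ), FE X (EE θ 0) h z = 0 → z.re = 0 := by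
  constructor
  · intro hz θ z h0
    exact on_line hX hh hz (EE_HB θ le_rfl) h0
  · intro hall
    have key : ∀ b : ℂ, X b = 0 → b.re ≤ h := by
      intro s hb0
      by_contra hs
      push Not at hs
      set U : Set ℂ := {z | 0 < z.re} with hU
      have hUc : IsPreconnected U := (convex_halfSpace_re_gt 0).isPreconnected
      have c1 : Continuous (fun z : ℂ => ‖X (z - h)‖) := (hX.sy.diff.continuous.comp (by fun_prop)).norm
      have c2 : Continuous (fun z : ℂ => ‖X (z + h)‖) := (hX.sy.diff.continuous.comp (by fun_prop)).norm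
      have hA : IsOpen {z : ℂ | ‖X (z - h)‖ < ‖X (z + h)‖} := isOpen_lt c1 c2
      have hB : IsOpen {z : ℂ | ‖X (z + h)‖ < ‖X (z - h)‖} := isOpen_lt c2 c1
      have hcov : U ⊆ {z : ℂ | ‖X (z - h)‖ < ‖X (z + h)‖} ∪ {z : ℂ | ‖X (z + h)‖ < ‖X (z - h)‖} := by
        intro z hz
        by_contra hcon
        rw [Set.mem_union, not_or] at hcon
        have h1 : ‖X (z - h)‖ = ‖X (z + h)‖ := le_antisymm (not_lt.1 hcon.2) (not_lt.1 hcon.1)
        -- choose the angle
        obtain ⟨θ, hθ⟩ : ∃ θ : ℝ, cexp (I * θ) * X (z + h) + cexp (-(I * θ)) * X (z - h) = 0 := by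
          refine ⟨(Real.pi + (X (z - h)).arg - (X (z + h)).arg) / 2, ?_⟩
          set α := (X (z + h)).arg with hα
          set β := (X (z - h)).arg with hβ
          have e1 : X (z + h) = (‖X (z + h)‖ : ℂ) * cexp (α * I) := (Complex.norm_mul_exp_arg_mul_I _).symm
          have e2 : X (z - h) = (‖X (z + h)‖ : ℂ) * cexp (β * I) := by
            rw [← h1]; exact (Complex.norm_mul_exp_arg_mul_I _).symm
          rw [e1, e2]
          have e3 : cexp (I * (((Real.pi + β - α) / 2 : ℝ) : ℂ)) * cexp (α * I) = cexp ((Real.pi / 2 : ℂ) * I) * cexp (((α + β) / 2 : ℂ) * I) := by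
            rw [← Complex.exp_add, ← Complex.exp_add]; congr 1; push_cast; ring
          have e4 : cexp (-(I * (((Real.pi + β - α) / 2 : ℝ) : ℂ))) * cexp (β * I) = cexp (-(Real.pi / 2 : ℂ) * I) * cexp (((α + β) / 2 : ℂ) * I) := by
            rw [← Complex.exp_add, ← Complex.exp_add]; congr 1; push_cast; ring
          have e5 : cexp ((Real.pi / 2 : ℂ) * I) = I := Complex.exp_pi_div_two_mul_I
          have e6 : cexp (-(Real.pi / 2 : ℂ) * I) = -I := by
            rw [neg_mul, Complex.exp_neg, e5, Complex.inv_I]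
          calc _ = (‖X (z + h)‖ : ℂ) * (cexp (I * (((Real.pi + β - α) / 2 : ℝ) : ℂ)) * cexp (α * I)) +
                (‖X (z + h)‖ : ℂ) * (cexp (-(I * (((Real.pi + β - α) / 2 : ℝ) : ℂ))) * cexp (β * I)) := by ring
            _ = 0 := by rw [e3, e4, e5, e6]; ring
        have h2 : FE X (EE θ 0) h z = 0 := by
          rw [FE_eq hX]
          have e1 : ∀ w : ℂ, EE θ 0 w = cexp (I * θ) := by
            intro w; unfold EE; simp
          rw [e1, e1, ← Complex.exp_conj, map_mul, Complex.conj_I, Complex.conj_ofReal, neg_mul]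
          exact hθ
        exact (ne_of_gt hz) (hall θ z h2)
      have hne1 : (U ∩ {z : ℂ | ‖X (z - h)‖ < ‖X (z + h)‖}).Nonempty :=
        ⟨1, by simp [hU], clr_strict hX hh (by simp) (Or.inl (by norm_num))⟩
      have hzU : (s - h : ℂ) ∈ U := by
        simp [hU]; linarith
      have hne2 : (U ∩ {z : ℂ | ‖X (z + h)‖ < ‖X (z - h)‖}).Nonempty := by
        refine ⟨_, hzU, ?_⟩
        rcases hcov hzU with h1 | h1
        · exfalso
          have e : (s - h + h : ℂ) = s := by ring
          have h2 : ‖X (s - h - h)‖ < ‖X (s - h + h)‖ := h1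
          rw [e, hb0, norm_zero] at h2
          exact absurd h2 (not_lt.2 (norm_nonneg _))
        · exact h1
      obtain ⟨z, _, h1, h2⟩ := hUc _ _ hA hB hcov hne1 hne2
      exact lt_asymm (show ‖X (z - h)‖ < ‖X (z + h)‖ from h1) h2
    intro b hb
    rw [abs_le]
    constructor
    · have := key (-(starRingEnd ℂ) b) (by rw [hX.sy.symm, hb, map_zero])
      simp at this
      linarith
    · exact key b hb

end

end Pool.Agent.K3h34.DL
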