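import Pool.Agent.K3h34.DL.Equiv

set_option autoImplicit false

/-!
# All zeros on the line in terms of one combination
-/

namespace Pool.Agent.K3h34.DL

open Complex Filter Topology MeasureTheory Set
open Pool.Agent.K3h34.DX (Ent cnt cnt_eq HBz EE EE_HB sh FF FF_sh stab ord_pos ord_zero)

noncomputable section

variable {X : ℂ → ℂ}

/-- all zeros on the line in terms of `e^{iθ} X(z + h) + e^{-iθ} X(z - h)` for one `θ` with `cos θ ≠ 0` -/
theorem line_iff (hX : XS X) {θ : ℝ} (hθ : Real.cos θ ≠ 0) : (∀ b : ℂ, X b = 0 → b.re = 0) ↔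
    ∀ h : ℝ, 0 < h → ∀ z : ℂ, FE X (EE θ 0) h z = 0 → z.re = 0 := by
  have hFE : ∀ (h : ℝ) (z : ℂ), FE X (EE θ 0) h z = cexp (I * θ) * X (z + h) + cexp (-(I * θ)) * X (z - h) := by
    intro h z
    rw [FE_eq hX]
    have e1 : ∀ w : ℂ, EE θ 0 w = cexp (I * θ) := by
      intro w; unfold EE; simp
    rw [e1, e1, ← Complex.exp_conj, map_mul, Complex.conj_I, Complex.conj_ofReal, neg_mul]
  constructor
  · intro hall h hh z hz
    exact on_line hX hh (fun b hb => by rw [hall b hb, abs_zero]; exact hh.le) (EE_HB θ le_rfl) hz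
  · intro hall
    have hkey : ∀ b : ℂ, X b = 0 → ¬ 0 < b.re := by
      intro b hb0 hbre
      set r := b.re / 2 with hr
      have hr0 : 0 < r := by positivity
      obtain ⟨δ, hδ, hst⟩ := stab hX.ent (U := Metric.ball b r) Metric.isOpen_ball Metric.isBounded_ball
      set c : ℂ := ((2 * Real.cos θ : ℝ) : ℂ) with hc
      have hc0 : c ≠ 0 := by
        rw [hc]
        exact_mod_cast mul_ne_zero two_ne_zero hθ
      have hcsum : cexp (I * θ) + cexp (-(I * θ)) = c := by
        rw [hc]
        push_cast
        rw [Complex.cos, mul_comm I (θ : ℂ), ← neg_mul]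
        ring
      set f : ℝ → ℂ → ℂ := fun h z => FE X (EE θ 0) h z / c with hf
      have hcont : Continuous (fun p : ℝ × ℂ => ‖f p.1 p.2 - X p.2‖) := by
        have h1 := hX.sy.diff.continuous
        simp only [hf, hFE]
        fun_prop
      have h2 : ∀ᶠ h in 𝓝 (0 : ℝ), ∀ w ∈ closure (Metric.ball b r), ‖f h w - X w‖ < δ := by
        apply Metric.isBounded_ball.isCompact_closure.eventually_forall_of_forall_eventually
        intro w _
        have h3 := hcont.tendsto ((0 : ℝ), w)
        have h4 : ‖f 0 w - X w‖ = 0 := by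
          simp only [hf, hFE]
          have : (cexp (I * θ) * X (w + (0 : ℝ)) + cexp (-(I * θ)) * X (w - (0 : ℝ))) / c = X w := by
            rw [div_eq_iff hc0, ← hcsum, Complex.ofReal_zero, add_zero, sub_zero]
            ring
          rw [this, sub_self, norm_zero]
        simp only [h4] at h3
        exact h3.eventually (gt_mem_nhds hδ)
      obtain ⟨h, h5, h6⟩ := ((h2.filter_mono nhdsWithin_le_nhds).and (self_mem_nhdsWithin : ∀ᶠ h in 𝓝[>] (0 : ℝ), h ∈ Ioi (0 : ℝ))).exists
      have hh : 0 < h := h6
      have hfe := FE_ent hX (EE_HB θ le_rfl) hh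
      have hfd : Differentiable ℂ (f h) := hfe.diff.div_const c
      have hzero : ∀ z : ℂ, f h z = 0 → z.re = 0 := by
        intro z hz
        apply hall h hh z
        simp only [hf] at hz
        rcases div_eq_zero_iff.1 hz with h7 | h7
        · exact h7
        · exact absurd h7 hc0
      have hEnt : Ent (f h) := ⟨hfd, ⟨1, fun h7 => by
        have := hzero 1 h7
        simp at this⟩⟩
      have h7 := (hst (f h) hEnt h5).1
      have h8 : 1 ≤ cnt X (Metric.ball b r) := by
        obtain ⟨Z, hZ⟩ := hX.ent.exS (U := Metric.ball b r) Metric.isBounded_ball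
        classical
        rw [cnt_eq hX.ent.diff Z (fun z hz h0 => (hZ z).2 ⟨subset_closure hz, h0⟩)]
        have h9 : b ∈ Z.filter (fun z => z ∈ Metric.ball b r) :=
          Finset.mem_filter.2 ⟨(hZ b).2 ⟨subset_closure (Metric.mem_ball_self hr0), hb0⟩, Metric.mem_ball_self hr0⟩
        exact (ord_pos hX.ent hb0).trans (Finset.single_le_sum (f := fun z => analyticOrderNatAt X z)
          (fun _ _ => Nat.zero_le _) h9)
      have h10 : cnt (f h) (Metric.ball b r) = 0 := by
        unfold cnt
        apply finsum_mem_eq_zero_of_forall_eq_zero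
        intro z hz
        apply ord_zero hfd
        intro h11
        have h12 := hzero z h11
        rw [Metric.mem_ball, dist_eq_norm] at hz
        have h13 := (Complex.abs_re_le_norm (z - b)).trans_lt hz
        rw [Complex.sub_re, h12, zero_sub, abs_neg, abs_of_pos hbre] at h13
        linarith
      omega
    intro b hb
    have h1 := hkey b hb
    have h2 := hkey (-(starRingEnd ℂ) b) (by rw [hX.sy.symm, hb, map_zero])
    simp at h1 h2
    linarith

end

end Pool.Agent.K3h34.DL
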