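import Pool.Agent.K3h34.DL.Equiv2
import Pool.Agent.K3h34.DX.Final

set_option autoImplicit false

/-!
# The statements in terms of the completed L-function
-/

namespace Pool.Agent.K3h34.DL

open Complex Filter Topology MeasureTheory Set
open Pool.Agent.K3h34.DX (Ent cnt cnt_congr cnt_fin_eq HBz EE EE_HB sh FF FF_sh ord_pos ord_zero ord_const_mul ord_deriv)
open Pool.Agent.Y693.GL (GoodY)
open Pool.Agent.Y671.GL (TopL)

noncomputable section

/-- Hermite-Biehler multipliers with respect to the line `Re s = a`. -/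
def HB (a : ℝ) (E : ℂ → ℂ) : Prop := Differentiable ℂ E ∧ (∀ s : ℂ, a ≤ s.re → E s ≠ 0) ∧
  ∀ s : ℂ, a < s.re → ‖E (2 * a - (starRingEnd ℂ) s)‖ ≤ ‖E s‖

/-- `E(s) Λ(s + h)` plus its reflection in the line `Re s = a` -/
def F (a : ℝ) (Λ E : ℂ → ℂ) (h : ℝ) (s : ℂ) : ℂ :=
  E s * Λ (s + h) + (starRingEnd ℂ) (E (2 * a - (starRingEnd ℂ) s) * Λ (2 * a - (starRingEnd ℂ) s + h))

/-- the multiplier `e^{iθ} e^{k (s - a)}` -/
def Ex (a θ k : ℝ) (s : ℂ) : ℂ := cexp (I * θ + k * (s - a))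

/-- `Λ(a + z)` is a multiple of `X(z)` -/
structure Dat (a : ℝ) (Λ X : ℂ → ℂ) (v : ℂ) : Prop where
  hX : XS X
  v0 : v ≠ 0
  eq : ∀ z : ℂ, X z = v * Λ (a + z)

variable {a : ℝ} {Λ X : ℂ → ℂ} {v : ℂ}

/-- the multiplier in the variable `z` -/
def toz (a : ℝ) (v : ℂ) (E : ℂ → ℂ) (z : ℂ) : ℂ := E (a + z) / v

lemma refl_pt (a : ℝ) (z : ℂ) : 2 * a - (starRingEnd ℂ) (a + z) = a + -(starRingEnd ℂ) z := by
  rw [map_add, Complex.conj_ofReal]; ring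

lemma toz_HB (hv : v ≠ 0) {E : ℂ → ℂ} (hE : HB a E) : HBz (toz a v E) := by
  obtain ⟨h1, h2, h3⟩ := hE
  refine ⟨(h1.comp (by fun_prop)).div_const v, fun z hz => div_ne_zero (h2 _ (by simp; exact hz)) hv,
    fun z hz => ?_⟩
  have := h3 (a + z) (by simp; exact hz)
  rw [refl_pt] at this
  unfold toz
  rw [norm_div, norm_div]
  exact div_le_div_of_nonneg_right this (norm_nonneg _)

lemma F_FE (D : Dat a Λ X v) (E : ℂ → ℂ) (h : ℝ) (z : ℂ) : F a Λ E h (a + z) = FE X (toz a v E) h z := by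
  rw [FE_eq D.hX]
  unfold F toz
  have hv := D.v0
  have hv' : (starRingEnd ℂ) v ≠ 0 := by rwa [Ne, map_eq_zero]
  have e1 : Λ (a + z + h) = X (z + h) / v := by
    rw [D.eq, show (a + (z + h) : ℂ) = a + z + h by ring]
    field_simp
  have e2 : (starRingEnd ℂ) (Λ (2 * a - (starRingEnd ℂ) (a + z) + h)) = X (z - h) / (starRingEnd ℂ) v := by
    rw [refl_pt]
    have h1 := D.eq (-(starRingEnd ℂ) z + h)
    have h2 : (-(starRingEnd ℂ) z + h : ℂ) = -(starRingEnd ℂ) (z - h) := by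
      rw [map_sub, Complex.conj_ofReal]; ring
    have h3 := D.hX.sy.symm (z - h)
    rw [← h2, h1] at h3
    have h4 : X (z - h) = (starRingEnd ℂ) v * (starRingEnd ℂ) (Λ (a + (-(starRingEnd ℂ) z + h))) := by
      rw [← map_mul, h3, Complex.conj_conj]
    rw [h4, show (a + -(starRingEnd ℂ) z + h : ℂ) = a + (-(starRingEnd ℂ) z + h) by ring]
    field_simp
  rw [map_mul, e1, e2, refl_pt, map_div₀]
  field_simp

lemma F_fun (D : Dat a Λ X v) (E : ℂ → ℂ) (h : ℝ) : F a Λ E h = fun s => FE X (toz a v E) h (s - a) := by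
  funext s
  have := F_FE D E h (s - a)
  rwa [show (a + (s - a) : ℂ) = s by ring] at this

lemma F_zero (D : Dat a Λ X v) (E : ℂ → ℂ) (h : ℝ) (s : ℂ) :
    F a Λ E h s = 0 ↔ FE X (toz a v E) h (s - a) = 0 := by
  rw [F_fun D]

lemma ord_sub (f : ℂ → ℂ) (a s : ℂ) :
    analyticOrderNatAt (fun s : ℂ => f (s - a)) s = analyticOrderNatAt f (s - a) := by
  have h1 : analyticOrderAt (f ∘ fun s : ℂ => s - a) s = analyticOrderAt f (s - a) := by
    apply analyticOrderAt_comp_of_deriv_ne_zero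
    · fun_prop
    · simp
  unfold analyticOrderNatAt
  exact congrArg ENat.toNat h1

lemma F_ord (D : Dat a Λ X v) (E : ℂ → ℂ) (h : ℝ) (s : ℂ) :
    analyticOrderNatAt (F a Λ E h) s = analyticOrderNatAt (FE X (toz a v E) h) (s - a) := by
  rw [F_fun D, ord_sub]

lemma F_ent (D : Dat a Λ X v) {E : ℂ → ℂ} (hE : HB a E) {h : ℝ} (hh : 0 < h) : Ent (F a Λ E h) := by
  have hz := FE_ent D.hX (toz_HB D.v0 hE) hh
  refine ⟨?_, ?_⟩
  · rw [F_fun D]
    exact hz.diff.comp (by fun_prop)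
  · obtain ⟨w, hw⟩ := hz.ne
    refine ⟨w + a, ?_⟩
    rw [Ne, F_zero D]
    simpa using hw

/-- zeros of `F` with height in `(T, 2T]` -/
def Zer (a : ℝ) (Λ E : ℂ → ℂ) (h T : ℝ) : Set ℂ := {s | F a Λ E h s = 0 ∧ T < s.im ∧ s.im ≤ 2 * T}

/-- the exceptional ones -/
def Exc (a : ℝ) (Λ E : ℂ → ℂ) (h T : ℝ) : Set ℂ :=
  {s | s ∈ Zer a Λ E h T ∧ (s.re ≠ a ∨ deriv (F a Λ E h) s = 0)}

/-- number of zeros -/
def num (f : ℂ → ℂ) (A : Set ℂ) : ℕ := ∑ᶠ s ∈ A, analyticOrderNatAt f s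

lemma Zer_image (D : Dat a Λ X v) (E : ℂ → ℂ) (h T : ℝ) :
    Zer a Λ E h T = (fun z : ℂ => a + z) '' ZD X (toz a v E) h T := by
  ext s
  constructor
  · rintro ⟨h1, h2, h3⟩
    refine ⟨s - a, ⟨(F_zero D E h s).1 h1, ?_, ?_⟩, by ring⟩
    · simpa using h2
    · simpa using h3
  · rintro ⟨z, ⟨h1, h2, h3⟩, rfl⟩
    refine ⟨(F_zero D E h _).2 ?_, ?_, ?_⟩
    · rw [show (a + z - a : ℂ) = z by ring]; exact h1
    · simpa using h2
    · simpa using h3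

lemma Exc_image (D : Dat a Λ X v) {E : ℂ → ℂ} (hE : HB a E) {h : ℝ} (hh : 0 < h) (T : ℝ) :
    Exc a Λ E h T = (fun z : ℂ => a + z) '' XD X (toz a v E) h T := by
  ext s
  constructor
  · rintro ⟨h1, h4⟩
    have h1' := h1
    rw [Zer_image D] at h1'
    obtain ⟨z, hz, rfl⟩ := h1'
    refine ⟨z, ⟨hz, ?_⟩, rfl⟩
    rcases h4 with h4 | h4
    · left
      intro h5
      apply h4
      simp [h5]
    · right
      rw [ord_deriv (F_ent D hE hh) h1.1, F_ord D] at h4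
      rwa [show (a + z - a : ℂ) = z by ring] at h4
  · rintro ⟨z, ⟨hz, h4⟩, rfl⟩
    have h1 : (a + z : ℂ) ∈ Zer a Λ E h T := by
      rw [Zer_image D]; exact ⟨z, hz, rfl⟩
    refine ⟨h1, ?_⟩
    rcases h4 with h4 | h4
    · left
      intro h5
      apply h4
      simpa using h5
    · right
      rw [ord_deriv (F_ent D hE hh) h1.1, F_ord D]
      rwa [show (a + z - a : ℂ) = z by ring]

lemma num_image (D : Dat a Λ X v) (E : ℂ → ℂ) (h : ℝ) (U : Set ℂ) :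
    num (F a Λ E h) ((fun z : ℂ => a + z) '' U) = cnt (FE X (toz a v E) h) U := by
  unfold num cnt
  rw [finsum_mem_image (fun a _ b _ hab => add_left_cancel hab)]
  refine finsum_congr fun z => ?_
  rw [F_ord D, show (a + z - a : ℂ) = z by ring]

lemma simple_iff (D : Dat a Λ X v) {E : ℂ → ℂ} (hE : HB a E) {h : ℝ} (hh : 0 < h) {s : ℂ} (h0 : F a Λ E h s = 0)
    (h1 : analyticOrderNatAt (FE X (toz a v E) h) (s - a) = 1) : deriv (F a Λ E h) s ≠ 0 := by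
  intro h2
  rw [ord_deriv (F_ent D hE hh) h0, F_ord D, h1] at h2
  omega

/-- exponential multipliers -/
lemma toz_Ex (hv : v ≠ 0) (a θ k : ℝ) (z : ℂ) :
    toz a v (Ex a θ k) z = ((‖v‖⁻¹ : ℝ) : ℂ) * EE (θ - v.arg) k z := by
  unfold toz Ex EE
  have e1 : v = (‖v‖ : ℂ) * cexp (v.arg * I) := (Complex.norm_mul_exp_arg_mul_I _).symm
  have hn : (‖v‖ : ℂ) ≠ 0 := by exact_mod_cast norm_ne_zero_iff.2 hv
  rw [show (a + z - a : ℂ) = z by ring]
  nth_rewrite 1 [e1]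
  rw [div_eq_iff (mul_ne_zero hn (Complex.exp_ne_zero _))]
  have e2 : ((‖v‖⁻¹ : ℝ) : ℂ) * cexp (I * ((θ - v.arg : ℝ) : ℂ) + k * z) * ((‖v‖ : ℂ) * cexp (v.arg * I)) =
      (((‖v‖⁻¹ : ℝ) : ℂ) * (‖v‖ : ℂ)) * (cexp (I * ((θ - v.arg : ℝ) : ℂ) + k * z) * cexp (v.arg * I)) := by ring
  rw [e2, ← Complex.exp_add]
  push_cast
  rw [inv_mul_cancel₀ hn, one_mul]
  congr 1
  ring

lemma FE_Ex (D : Dat a Λ X v) (θ k h : ℝ) (z : ℂ) :
    FE X (toz a v (Ex a θ k)) h z = ((‖v‖⁻¹ : ℝ) : ℂ) * FE X (EE (θ - v.arg) k) h z := by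
  rw [FE_eq D.hX, FE_eq D.hX, toz_Ex D.v0, toz_Ex D.v0, map_mul, Complex.conj_ofReal]
  ring

lemma F_Ex_zero (D : Dat a Λ X v) (θ k h : ℝ) (s : ℂ) :
    F a Λ (Ex a θ k) h s = 0 ↔ FE X (EE (θ - v.arg) k) h (s - a) = 0 := by
  rw [F_zero D, FE_Ex D, mul_eq_zero]
  constructor
  · rintro (h1 | h1)
    · exfalso
      have h2 : ‖v‖⁻¹ = 0 := by exact_mod_cast h1
      exact D.v0 (norm_eq_zero.1 (inv_eq_zero.1 h2))
    · exact h1
  · exact fun h1 => Or.inr h1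

/-- the window of half-length `5h` around the height `t` -/
def Fine (a κ : ℝ) (Λ : ℂ → ℂ) (ε h T t : ℝ) : Prop :=
  (∀ E : ℂ → ℂ, HB a E →
    (∀ s : ℂ, F a Λ E h s = 0 → |s.im - t| ≤ 5 * h → s.re = a ∧ deriv (F a Λ E h) s ≠ 0) ∧
    ∀ x y : ℝ, t - 5 * h ≤ x → y ≤ t + 5 * h → (1 + ε) * (Real.pi / (κ * Real.log T)) ≤ y - x →
      ∃ w ∈ Icc x y, F a Λ E h (a + I * w) = 0) ∧
  ∀ θ k : ℝ, 0 ≤ k →
    (∀ x y : ℝ, t - 5 * h ≤ x → x < y → y ≤ t + 5 * h → F a Λ (Ex a θ k) h (a + I * x) = 0 →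
      F a Λ (Ex a θ k) h (a + I * y) = 0 → (1 - ε) * (Real.pi / (κ * Real.log T + k)) ≤ y - x) ∧
    ∀ x y : ℝ, t - 5 * h ≤ x → y ≤ t + 5 * h → (1 + ε) * (Real.pi / (κ * Real.log T + k)) ≤ y - x →
      ∃ w ∈ Icc x y, F a Λ (Ex a θ k) h (a + I * w) = 0

lemma fine_of_fineZ (D : Dat a Λ X v) {κ ε h T t : ℝ} (hh : 0 < h) (hf : FineZ X κ ε h T t) :
    Fine a κ Λ ε h T t := by
  have hz : ∀ (E : ℂ → ℂ) (y : ℝ), F a Λ E h (a + I * y) = 0 ↔ FE X (toz a v E) h (I * y) = 0 := by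
    intro E y
    rw [F_zero D, show (a + I * (y : ℂ) - a : ℂ) = I * y by ring]
  have hz' : ∀ (θ k : ℝ) (y : ℝ), F a Λ (Ex a θ k) h (a + I * y) = 0 ↔ FE X (EE (θ - v.arg) k) h (I * y) = 0 := by
    intro θ k y
    rw [F_Ex_zero D, show (a + I * (y : ℂ) - a : ℂ) = I * y by ring]
  refine ⟨fun E hE => ?_, fun θ k hk => ?_⟩
  · obtain ⟨h1, h2⟩ := hf.1 (toz a v E) (toz_HB D.v0 hE)
    refine ⟨fun s hs hst => ?_, fun x y ha hb hab => ?_⟩
    · obtain ⟨h3, h4⟩ := h1 (s - a) ((F_zero D E h s).1 hs) (by simpa using hst)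
      refine ⟨?_, simple_iff D hE hh hs h4⟩
      simp at h3
      linarith
    · obtain ⟨w, hy, hy0⟩ := h2 x y ha hb hab
      exact ⟨w, hy, (hz E w).2 hy0⟩
  · obtain ⟨h1, h2⟩ := hf.2 (θ - v.arg) k hk
    refine ⟨fun x y ha hab hb h3 h4 => ?_, fun x y ha hb hab => ?_⟩
    · rw [hz'] at h3 h4
      exact h1 x y ha hab hb h3 h4
    · obtain ⟨w, hy, hy0⟩ := h2 x y ha hb hab
      exact ⟨w, hy, (hz' θ k w).2 hy0⟩

lemma Lam_eq (D : Dat a Λ X v) : Λ = fun s => v⁻¹ * X (s - a) := by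
  funext s
  have hv := D.v0
  rw [D.eq, show (a + (s - a) : ℂ) = s by ring]
  field_simp

lemma Lam_zero (D : Dat a Λ X v) (s : ℂ) : Λ s = 0 ↔ X (s - a) = 0 := by
  rw [Lam_eq D]
  simp [D.v0]

lemma Lam_ord (D : Dat a Λ X v) (z : ℂ) : analyticOrderNatAt Λ (a + z) = analyticOrderNatAt X z := by
  have hent : Ent (fun s : ℂ => X (s - a)) := by
    obtain ⟨w, hw⟩ := D.hX.ent.ne
    exact ⟨D.hX.ent.diff.comp (by fun_prop), ⟨w + a, by simpa using hw⟩⟩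
  rw [Lam_eq D, ord_const_mul hent (inv_ne_zero D.v0), ord_sub, show (a + z - a : ℂ) = z by ring]

lemma num_Lam (D : Dat a Λ X v) (U : Set ℂ) : num Λ ((fun z : ℂ => a + z) '' U) = cnt X U := by
  unfold num cnt
  rw [finsum_mem_image (fun a _ b _ hab => add_left_cancel hab)]
  refine finsum_congr fun z => ?_
  rw [Lam_ord D]

/-- `Y` is farther than `Re ρ - a` from the height of every zero `ρ` with `Re ρ ≥ a + h` -/
def Far (a : ℝ) (Λ : ℂ → ℂ) (h Y : ℝ) : Prop := ∀ ρ : ℂ, Λ ρ = 0 → a + h ≤ ρ.re → ρ.re - a < |Y - ρ.im|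

lemma clr_of_far (D : Dat a Λ X v) {h Y : ℝ} (hf : Far a Λ h Y) : Clr X h Y := by
  have key : ∀ b : ℂ, X b = 0 → h ≤ b.re → b.re < |Y - b.im| := by
    intro b hb hbr
    have := hf (a + b) (by rw [Lam_zero D, show (a + b - a : ℂ) = b by ring]; exact hb) (by simp; exact hbr)
    simpa using this
  intro b hb hbr
  rcases le_total 0 b.re with h1 | h1
  · rw [abs_of_nonneg h1] at hbr ⊢
    exact key b hb hbr
  · rw [abs_of_nonpos h1] at hbr ⊢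
    have := key (-(starRingEnd ℂ) b) (by rw [D.hX.sy.symm, hb, map_zero]) (by simpa using hbr)
    simpa using this

theorem part0 (D : Dat a Λ X v) (E : ℂ → ℂ) (hE : HB a E) (h Y1 Y2 : ℝ) (hh : 0 < h) (hY : Y1 ≤ Y2)
    (h1 : Far a Λ h Y1) (h2 : Far a Λ h Y2) :
    num (F a Λ E h) {s | F a Λ E h s = 0 ∧ Y1 < s.im ∧ s.im < Y2 ∧ (s.re ≠ a ∨ deriv (F a Λ E h) s = 0)} ≤
      4 * num Λ {ρ | a + h ≤ ρ.re ∧ Y1 < ρ.im ∧ ρ.im < Y2} := by
  have e1 : {s | F a Λ E h s = 0 ∧ Y1 < s.im ∧ s.im < Y2 ∧ (s.re ≠ a ∨ deriv (F a Λ E h) s = 0)} =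
      (fun z : ℂ => a + z) '' {z | FE X (toz a v E) h z = 0 ∧ Y1 < z.im ∧ z.im < Y2 ∧
        (z.re ≠ 0 ∨ 2 ≤ analyticOrderNatAt (FE X (toz a v E) h) z)} := by
    ext s
    constructor
    · rintro ⟨a1, a2, a3, a4⟩
      refine ⟨s - a, ⟨(F_zero D E h s).1 a1, by simpa using a2, by simpa using a3, ?_⟩, by ring⟩
      rcases a4 with a4 | a4
      · left
        intro a5
        apply a4
        simp at a5
        linarith
      · right
        rwa [ord_deriv (F_ent D hE hh) a1, F_ord D] at a4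
    · rintro ⟨z, ⟨a1, a2, a3, a4⟩, rfl⟩
      have a0 : F a Λ E h (a + z) = 0 := by
        rw [F_zero D, show (a + z - a : ℂ) = z by ring]; exact a1
      refine ⟨a0, by simpa using a2, by simpa using a3, ?_⟩
      rcases a4 with a4 | a4
      · left
        intro a5
        apply a4
        simpa using a5
      · right
        rw [ord_deriv (F_ent D hE hh) a0, F_ord D]
        rwa [show (a + z - a : ℂ) = z by ring]
  have e2 : cnt X (VV h Y1 Y2) ≤ num Λ {ρ | a + h ≤ ρ.re ∧ Y1 < ρ.im ∧ ρ.im < Y2} := by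
    have e3 : {ρ : ℂ | a + h ≤ ρ.re ∧ Y1 < ρ.im ∧ ρ.im < Y2} =
        (fun z : ℂ => a + z) '' {z | h ≤ z.re ∧ Y1 < z.im ∧ z.im < Y2} := by
      ext s
      constructor
      · rintro ⟨a1, a2, a3⟩
        exact ⟨s - a, ⟨by simp; linarith, by simpa using a2, by simpa using a3⟩, by ring⟩
      · rintro ⟨z, ⟨a1, a2, a3⟩, rfl⟩
        exact ⟨by simp; exact a1, by simpa using a2, by simpa using a3⟩
    rw [e3, num_Lam D]
    refine le_of_eq (cnt_congr D.hX.ent.diff ?_)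
    intro b hb
    have hb1 := D.hX.strip b hb
    rw [abs_le] at hb1
    exact ⟨fun a => ⟨a.1, a.2.2.1, a.2.2.2⟩, fun a => ⟨a.1, by linarith, a.2.1, a.2.2⟩⟩
  rw [e1, num_image D]
  refine le_trans ?_ (Nat.mul_le_mul_left 4 e2)
  have hfin : {z | FE X (toz a v E) h z = 0 ∧ Y1 < z.im ∧ z.im < Y2 ∧
        (z.re ≠ 0 ∨ 2 ≤ analyticOrderNatAt (FE X (toz a v E) h) z)}.Finite := by
    have hK : IsCompact (Metric.closedBall (0 : ℂ) (1 + (|Y1| + |Y2|))) := isCompact_closedBall _ _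
    refine ((FE_ent D.hX (toz_HB D.v0 hE) hh).fin hK).subset ?_
    rintro z ⟨b0, b1, b2, _⟩
    refine ⟨?_, b0⟩
    rw [Metric.mem_closedBall, dist_zero_right]
    refine (Complex.norm_le_abs_re_add_abs_im z).trans ?_
    have h3 := FE_strip D.hX (toz_HB D.v0 hE) hh b0
    have h4 : |z.im| ≤ |Y1| + |Y2| := by
      rw [abs_le]
      constructor
      · linarith [neg_abs_le Y1, abs_nonneg Y2]
      · linarith [le_abs_self Y2, abs_nonneg Y1]
    linarith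
  rw [cnt_fin_eq hfin]
  refine exc_count D.hX (toz_HB D.v0 hE) hh hY (clr_of_far D h1) (clr_of_far D h2) hfin.toFinset fun s hs => ?_
  rw [Set.Finite.mem_toFinset] at hs
  exact ⟨hs.2.1, hs.2.2.1, hs.1, hs.2.2.2⟩

theorem part_fin (D : Dat a Λ X v) (E : ℂ → ℂ) (hE : HB a E) (h : ℝ) (hh : 0 < h) (x y : ℝ) :
    {s : ℂ | F a Λ E h s = 0 ∧ s.im ∈ Icc x y}.Finite := by
  have hfin : {z | FE X (toz a v E) h z = 0 ∧ z.im ∈ Icc x y}.Finite := by
    have hK : IsCompact (Metric.closedBall (0 : ℂ) (1 + (|x| + |y|))) := isCompact_closedBall _ _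
    refine ((FE_ent D.hX (toz_HB D.v0 hE) hh).fin hK).subset ?_
    rintro z ⟨b0, b1, b2⟩
    refine ⟨?_, b0⟩
    rw [Metric.mem_closedBall, dist_zero_right]
    refine (Complex.norm_le_abs_re_add_abs_im z).trans ?_
    have h3 := FE_strip D.hX (toz_HB D.v0 hE) hh b0
    have h4 : |z.im| ≤ |x| + |y| := by
      rw [abs_le]
      constructor
      · linarith [neg_abs_le x, abs_nonneg y]
      · linarith [le_abs_self y, abs_nonneg x]
    linarith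
  refine (hfin.image (fun z : ℂ => a + z)).subset ?_
  rintro s ⟨h1, h2⟩
  exact ⟨s - a, ⟨(F_zero D E h s).1 h1, by simpa using h2⟩, by ring⟩

theorem part2 (D : Dat a Λ X v) {κ : ℝ} (hκ : 0 < κ) (hg : GoodY κ X) (htop : TopL κ X) (hd : Dens 1 X)
    (c : ℝ) (hc : c < 1) : ∃ C : ℝ, 0 < C ∧ ∀ (E : ℂ → ℂ) (h T : ℝ), HB a E → 0 < h → h ≤ 1 / 2 →
    2 ≤ T → (num (F a Λ E h) (Exc a Λ E h T) : ℝ) ≤ C * T ^ (-(c * h)) * num (F a Λ E h) (Zer a Λ E h T) ∧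
      (C ≤ T ^ h → (num (F a Λ E h) (Exc a Λ E h T) : ℝ) ≤ C * T ^ (1 - c * h) * Real.log T) := by
  obtain ⟨C, hC, h1⟩ := count_main D.hX hκ hg htop hd one_pos (by norm_num) hc
  refine ⟨C, hC, fun E h T hE hh hh2 hT => ?_⟩
  rw [Exc_image D hE hh, Zer_image D, num_image D, num_image D]
  exact h1 T h (toz a v E) hT hh hh2 (toz_HB D.v0 hE)

theorem part4 (D : Dat a Λ X v) {κ : ℝ} (hκ : 0 < κ) (hg : GoodY κ X) (htop : TopL κ X) (hd : Dens 1 X)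
    (ε : ℝ) (hε : 0 < ε) (hε1 : ε < 1) : ∃ c C : ℝ, 0 < c ∧ 0 < C ∧ ∀ h T : ℝ, 0 < h → h ≤ 1 / 2 → 2 ≤ T →
    volume {t : ℝ | T ≤ t ∧ t ≤ 2 * T ∧ ¬ Fine a κ Λ ε h T t} ≤ ENNReal.ofReal (C * T ^ (1 - c * h)) := by
  obtain ⟨c, C, hc, hC, h1⟩ := fine_meas D.hX hκ hg htop hd hε hε1
  refine ⟨c, C, hc, hC, fun h T hh hh2 hT => (measure_mono ?_).trans (h1 T h hT hh hh2)⟩
  rintro t ⟨a1, a2, a3⟩
  exact ⟨a1, a2, fun h4 => a3 (fine_of_fineZ D hh h4)⟩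

theorem part6 (D : Dat a Λ X v) (h : ℝ) (hh : 0 < h) : (∀ s : ℂ, Λ s = 0 → |s.re - a| ≤ h) ↔
    ∀ (θ : ℝ) (s : ℂ), F a Λ (Ex a θ 0) h s = 0 → s.re = a := by
  have e1 : (∀ s : ℂ, Λ s = 0 → |s.re - a| ≤ h) ↔ ∀ b : ℂ, X b = 0 → |b.re| ≤ h := by
    constructor
    · intro h1 b hb
      have := h1 (a + b) (by rw [Lam_zero D, show (a + b - a : ℂ) = b by ring]; exact hb)
      simpa using this
    · intro h1 s hs
      have := h1 (s - a) ((Lam_zero D s).1 hs)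
      simpa using this
  rw [e1, half_plane_iff D.hX hh]
  constructor
  · intro h1 θ s hs
    rw [F_Ex_zero D] at hs
    have h2 := h1 _ _ hs
    simp at h2
    linarith
  · intro h1 θ z hz
    have h2 := h1 (θ + v.arg) (a + z) (by
      rw [F_Ex_zero D, show (a + z - a : ℂ) = z by ring, add_sub_cancel_right]
      exact hz)
    simpa using h2

theorem part5 (D : Dat a Λ X v) (θ : ℝ) (s₀ : ℂ) (hθ : F a Λ (Ex a θ 0) 0 s₀ ≠ 0) :
    (∀ s : ℂ, Λ s = 0 → s.re = a) ↔ ∀ (h : ℝ), 0 < h → ∀ s : ℂ, F a Λ (Ex a θ 0) h s = 0 → s.re = a := by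
  have hcos : Real.cos (θ - v.arg) ≠ 0 := by
    intro h0
    apply hθ
    rw [F_Ex_zero D, FE_eq D.hX]
    have e1 : ∀ w : ℂ, EE (θ - v.arg) 0 w = cexp (I * ((θ - v.arg : ℝ) : ℂ)) := by
      intro w; unfold EE; simp
    rw [e1, e1, ← Complex.exp_conj, map_mul, Complex.conj_I, Complex.conj_ofReal, neg_mul]
    have e2 : cexp (I * ((θ - v.arg : ℝ) : ℂ)) + cexp (-(I * ((θ - v.arg : ℝ) : ℂ))) =
        ((2 * Real.cos (θ - v.arg) : ℝ) : ℂ) := by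
      push_cast
      rw [Complex.cos, mul_comm I _, ← neg_mul]
      ring
    have e3 : cexp (I * ((θ - v.arg : ℝ) : ℂ)) * X (s₀ - a + (0 : ℝ)) +
        cexp (-(I * ((θ - v.arg : ℝ) : ℂ))) * X (s₀ - a - (0 : ℝ)) =
        (cexp (I * ((θ - v.arg : ℝ) : ℂ)) + cexp (-(I * ((θ - v.arg : ℝ) : ℂ)))) * X (s₀ - a) := by
      rw [Complex.ofReal_zero, add_zero, sub_zero]; ring
    rw [e3, e2, h0]
    simp
  have e1 : (∀ s : ℂ, Λ s = 0 → s.re = a) ↔ ∀ b : ℂ, X b = 0 → b.re = 0 := by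
    constructor
    · intro h1 b hb
      have := h1 (a + b) (by rw [Lam_zero D, show (a + b - a : ℂ) = b by ring]; exact hb)
      simpa using this
    · intro h1 s hs
      have := h1 (s - a) ((Lam_zero D s).1 hs)
      simp at this
      linarith
  rw [e1, line_iff D.hX hcos]
  constructor
  · intro h1 h hh s hs
    rw [F_Ex_zero D] at hs
    have h2 := h1 h hh _ hs
    simp at h2
    linarith
  · intro h1 h hh z hz
    have h2 := h1 h hh (a + z) (by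
      rw [F_Ex_zero D, show (a + z - a : ℂ) = z by ring]
      exact hz)
    simpa using h2

end

end Pool.Agent.K3h34.DL
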