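import Pool.Agent.K3h34.DL.Strict

set_option autoImplicit false

/-!
# Exceptional zeros of `E(z) X(z + h) + E^#(z) X(z - h)` in a window
-/

namespace Pool.Agent.K3h34.DL

open Complex Filter Topology Metric Set
open Pool.Agent.K3h34.DX hiding GG GG_diff sh_GG Clr clr_strict GG_strict GG_dom GG_end GG_ent FE FE_eq FE_ent FE_ne
  FE_strip VV VV_bdd ord_shift ord_GG cnt_GG exc_count cnt_VV XX_shift_diff

noncomputable section

variable {X : ℂ → ℂ}

/-- `E(z) X(z + h)` -/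
def GG (X E : ℂ → ℂ) (h : ℝ) (z : ℂ) : ℂ := E z * X (z + h)

lemma shift_diff (hX : XS X) (h : ℝ) : Differentiable ℂ (fun z : ℂ => X (z + h)) :=
  hX.sy.diff.comp (by fun_prop)

lemma GG_diff (hX : XS X) {E : ℂ → ℂ} (hE : HBz E) (h : ℝ) : Differentiable ℂ (GG X E h) :=
  hE.diff.mul (shift_diff hX h)

lemma sh_GG (hX : XS X) (E : ℂ → ℂ) (h : ℝ) (z : ℂ) : sh (GG X E h) z = sh E z * X (z - h) := by
  rw [← sh_X hX h z]
  unfold sh GG
  rw [map_mul]

/-- the height `Y` is not near a zero at distance at least `h` from the line -/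
def Clr (X : ℂ → ℂ) (h Y : ℝ) : Prop := ∀ b : ℂ, X b = 0 → h ≤ |b.re| → |b.re| < |Y - b.im|

lemma clr_strict (hX : XS X) {h : ℝ} (hh : 0 < h) {z : ℂ} (hz : 0 < z.re) (hc : 1 / 2 ≤ z.re ∨ Clr X h z.im) :
    ‖X (z - h)‖ < ‖X (z + h)‖ := by
  apply strict' hX hz hh
  intro b hb
  rcases hc with hc | hc
  · have h1 := hX.strip b hb
    have h2 : b.re ^ 2 ≤ (1 / 2) ^ 2 := by
      rw [← sq_abs]
      exact pow_le_pow_left₀ (abs_nonneg _) h1 2
    have h3 : 0 < h ^ 2 := by positivity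
    nlinarith [sq_nonneg (z.im - b.im)]
  · rcases lt_or_ge |b.re| h with h1 | h1
    · have h2 : b.re ^ 2 < h ^ 2 := by
        rw [← sq_abs]
        exact pow_lt_pow_left₀ h1 (abs_nonneg _) two_ne_zero
      nlinarith [sq_nonneg (z.im - b.im), sq_nonneg z.re]
    · have h2 := hc b hb h1
      have h3 : b.re ^ 2 < (z.im - b.im) ^ 2 := by
        rw [← sq_abs b.re, ← sq_abs (z.im - b.im)]
        exact pow_lt_pow_left₀ h2 (abs_nonneg _) two_ne_zero
      nlinarith [sq_nonneg h, sq_nonneg z.re]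

lemma GG_strict (hX : XS X) {E : ℂ → ℂ} (hE : HBz E) {h : ℝ} (hh : 0 < h) {z : ℂ} (hz : 0 < z.re)
    (hc : 1 / 2 ≤ z.re ∨ Clr X h z.im) : ‖sh (GG X E h) z‖ < ‖GG X E h z‖ := by
  have h1 := clr_strict hX hh hz hc
  have h2 : ‖sh E z‖ ≤ ‖E z‖ := by
    unfold sh
    rw [Complex.norm_conj]
    exact hE.le z hz
  have h3 : 0 < ‖E z‖ := norm_pos_iff.2 (hE.ne z hz.le)
  rw [sh_GG hX]
  unfold GG
  rw [norm_mul, norm_mul]
  calc ‖sh E z‖ * ‖X (z - h)‖ ≤ ‖E z‖ * ‖X (z - h)‖ := mul_le_mul_of_nonneg_right h2 (norm_nonneg _)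
    _ < ‖E z‖ * ‖X (z + h)‖ := mul_lt_mul_of_pos_left h1 h3

lemma GG_dom (hX : XS X) {E : ℂ → ℂ} (hE : HBz E) {h : ℝ} (hh : 0 < h) {Y1 Y2 : ℝ} (h1 : Clr X h Y1)
    (h2 : Clr X h Y2) : Dom (GG X E h) Y1 Y2 := by
  intro z a1 a2 a3 a4 a5
  refine GG_strict hX hE hh a1 ?_
  rcases a5 with h | h | h
  · left; rw [h]; norm_num
  · right; rw [h]; exact h1
  · right; rw [h]; exact h2

lemma GG_end {E : ℂ → ℂ} (hE : HBz E) {h : ℝ} {z : ℂ} (hz : z.re = 0) (hc : Clr X h z.im) : GG X E h z ≠ 0 := by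
  unfold GG
  refine mul_ne_zero (hE.ne z hz.ge) fun h0 => ?_
  have h1 := hc _ h0 (by simp [hz]; exact le_abs_self h)
  simp [hz] at h1
  linarith [abs_nonneg h]

lemma GG_ent (hX : XS X) {E : ℂ → ℂ} (hE : HBz E) {h : ℝ} (hh : 0 < h) : Ent (GG X E h) := by
  refine ⟨GG_diff hX hE h, ⟨1, ?_⟩⟩
  have h1 := GG_strict hX hE hh (z := 1) (by simp) (Or.inl (by norm_num))
  exact norm_pos_iff.1 (lt_of_le_of_lt (norm_nonneg _) h1)

/-- the function -/
def FE (X E : ℂ → ℂ) (h : ℝ) : ℂ → ℂ := FF 1 (GG X E h)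

lemma FE_eq (hX : XS X) (E : ℂ → ℂ) (h : ℝ) (z : ℂ) :
    FE X E h z = E z * X (z + h) + (starRingEnd ℂ) (E (-(starRingEnd ℂ) z)) * X (z - h) := by
  unfold FE FF
  rw [sh_GG hX]
  unfold GG sh
  simp

lemma FE_ent (hX : XS X) {E : ℂ → ℂ} (hE : HBz E) {h : ℝ} (hh : 0 < h) : Ent (FE X E h) := by
  refine ⟨FF_diff (GG_diff hX hE h) 1, ⟨1, fun h0 => ?_⟩⟩
  have h1 := GG_strict hX hE hh (z := 1) (by simp) (Or.inl (by norm_num))
  unfold FE FF at h0
  rw [map_one, one_mul, one_mul] at h0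
  have h2 : GG X E h 1 = -sh (GG X E h) 1 := by linear_combination h0
  rw [h2, norm_neg] at h1
  exact lt_irrefl _ h1

/-- a zero off the line, to the right, has a zero of `X` near it -/
lemma FE_ne (hX : XS X) {E : ℂ → ℂ} (hE : HBz E) {h : ℝ} (hh : 0 < h) {z : ℂ} (hz : z.re ≠ 0)
    (hc : 1 / 2 ≤ |z.re| ∨ Clr X h z.im) : FE X E h z ≠ 0 := by
  have key : ∀ z : ℂ, 0 < z.re → (1 / 2 ≤ |z.re| ∨ Clr X h z.im) → FE X E h z ≠ 0 := by
    intro z hz hc h0
    rw [abs_of_pos hz] at hc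
    have h1 := GG_strict hX hE hh hz hc
    unfold FE FF at h0
    rw [map_one, one_mul, one_mul] at h0
    have h2 : GG X E h z = -sh (GG X E h) z := by linear_combination h0
    rw [h2, norm_neg] at h1
    exact lt_irrefl _ h1
  rcases lt_or_gt_of_ne hz with h | h
  · intro h0
    refine key (-(starRingEnd ℂ) z) (by simpa using h) (by simpa using hc) ?_
    unfold FE at h0 ⊢
    rw [← FF_sh, h0, map_zero]
  · exact key z h hc

lemma FE_strip (hX : XS X) {E : ℂ → ℂ} (hE : HBz E) {h : ℝ} (hh : 0 < h) {z : ℂ} (h0 : FE X E h z = 0) :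
    |z.re| < 1 / 2 := by
  by_contra hcon
  push Not at hcon
  have hz : z.re ≠ 0 := by
    intro h1; rw [h1, abs_zero] at hcon; norm_num at hcon
  exact FE_ne hX hE hh hz (Or.inl hcon) h0

/-- the zeros of `X` to the right of the line at distance at least `h` -/
def VV (h Y1 Y2 : ℝ) : Set ℂ := {b | h ≤ b.re ∧ b.re ≤ 1 ∧ Y1 < b.im ∧ b.im < Y2}

lemma VV_bdd {h : ℝ} (hh : 0 < h) (Y1 Y2 : ℝ) : Bornology.IsBounded (VV h Y1 Y2) :=
  Pool.Agent.K3h34.DX.VV_bdd hh Y1 Y2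

lemma X_top (hX : XS X) (z : ℂ) : analyticOrderAt X z ≠ ⊤ := hX.ent.top z

lemma ord_shift (X : ℂ → ℂ) (h : ℝ) (z : ℂ) :
    analyticOrderNatAt (fun z : ℂ => X (z + h)) z = analyticOrderNatAt X (z + h) := by
  have h1 : analyticOrderAt (X ∘ fun z : ℂ => z + h) z = analyticOrderAt X (z + h) := by
    apply analyticOrderAt_comp_of_deriv_ne_zero
    · fun_prop
    · simp
  unfold analyticOrderNatAt
  exact congrArg ENat.toNat h1

lemma ord_GG (hX : XS X) {E : ℂ → ℂ} (hE : HBz E) (h : ℝ) {z : ℂ} (hz : 0 ≤ z.re) :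
    analyticOrderNatAt (GG X E h) z = analyticOrderNatAt X (z + h) := by
  have e : GG X E h = E * fun z => X (z + h) := rfl
  have h2 : analyticOrderAt E z = 0 := by
    rw [(hE.diff.analyticAt z).analyticOrderAt_eq_zero]
    exact hE.ne z hz
  have h3 : analyticOrderAt (fun z : ℂ => X (z + h)) z ≠ ⊤ := by
    have h1 : analyticOrderAt (X ∘ fun z : ℂ => z + h) z = analyticOrderAt X (z + h) := by
      apply analyticOrderAt_comp_of_deriv_ne_zero
      · fun_prop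
      · simp
    exact fun h4 => X_top hX (z + h) (h1.symm.trans h4)
  rw [e, analyticOrderNatAt_mul (hE.diff.analyticAt z) ((shift_diff hX h).analyticAt z) (by rw [h2]; simp) h3,
    ord_shift]
  have h4 : analyticOrderNatAt E z = 0 := by
    unfold analyticOrderNatAt
    rw [h2]; rfl
  rw [h4, zero_add]

/-- the half-open version of the rectangle used for counting -/
lemma cnt_GG (hX : XS X) {E : ℂ → ℂ} (hE : HBz E) {h : ℝ} (hh : 0 < h) (Y1 Y2 : ℝ) :
    cnt (GG X E h) (RR Y1 Y2 ∪ LL Y1 Y2) = cnt X (VV h Y1 Y2) := by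
  have h1 : cnt (GG X E h) (RR Y1 Y2 ∪ LL Y1 Y2) = cnt X ((fun z : ℂ => z + h) '' (RR Y1 Y2 ∪ LL Y1 Y2)) := by
    unfold cnt
    rw [finsum_mem_image (fun a _ b _ hab => add_right_cancel hab)]
    refine finsum_congr fun z => ?_
    by_cases hz : z ∈ RR Y1 Y2 ∪ LL Y1 Y2
    · have hre : 0 ≤ z.re := by
        rcases hz with hz | hz
        · exact hz.1.le
        · exact hz.1.ge
      rw [ord_GG hX hE h hre]
    · simp [hz]
  rw [h1]
  apply cnt_congr hX.ent.diff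
  intro b hb
  have hb1 := hX.strip b hb
  rw [abs_le] at hb1
  constructor
  · rintro ⟨z, hz, rfl⟩
    rcases hz with hz | hz
    · obtain ⟨a, b, c, d⟩ := hz
      refine ⟨?_, ?_, ?_, ?_⟩ <;> simp <;> first | linarith | skip
      have := hb1.2; simp at this; linarith
    · obtain ⟨a, c, d⟩ := hz
      refine ⟨?_, ?_, ?_, ?_⟩ <;> simp <;> first | linarith | skip
      have := hb1.2; simp at this; linarith
  · rintro ⟨a1, a2, a3, a4⟩
    refine ⟨b - h, ?_, by ring⟩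
    rcases a1.eq_or_lt with h2 | h2
    · right
      refine ⟨by simp; linarith, by simpa using a3, by simpa using a4⟩
    · left
      refine ⟨by simp; linarith, ?_, by simpa using a3, by simpa using a4⟩
      simp; linarith

/-- the local bound for the exceptional zeros -/
theorem exc_count (hX : XS X) {E : ℂ → ℂ} (hE : HBz E) {h : ℝ} (hh : 0 < h) {Y1 Y2 : ℝ} (hY : Y1 ≤ Y2)
    (h1 : Clr X h Y1) (h2 : Clr X h Y2) (A : Finset ℂ) (hA : ∀ s ∈ A, Y1 < s.im ∧ s.im < Y2 ∧ FE X E h s = 0 ∧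
      (s.re ≠ 0 ∨ 2 ≤ analyticOrderNatAt (FE X E h) s)) :
    ∑ s ∈ A, analyticOrderNatAt (FE X E h) s ≤ 4 * cnt X (VV h Y1 Y2) := by
  rw [← cnt_GG hX hE hh]
  refine exc_bound (GG_ent hX hE hh) hY (GG_dom hX hE hh h1 h2) ?_ one_ne_zero A ?_
  · rintro z hz (h3 | h3)
    · exact GG_end hE hz (h3 ▸ h1)
    · exact GG_end hE hz (h3 ▸ h2)
  · intro s hs
    obtain ⟨a, b, c, d⟩ := hA s hs
    refine ⟨?_, a, b, c, d⟩
    have := FE_strip hX hE hh c
    linarith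

end

end Pool.Agent.K3h34.DL
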