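import Pool.Agent.K3h34.DL.RegMeas

set_option autoImplicit false

/-!
# Many zeros on the line
-/

namespace Pool.Agent.K3h34.DL

open Complex Filter Topology MeasureTheory Set
open Pool.Agent.K3h34.DX (Ent cnt HBz HBz_re)
open Pool.Agent.Y693.GL (GoodY)
open Pool.Agent.Y671.GL (TopL)

noncomputable section

variable {X : ℂ → ℂ}

/-- the speed of the argument at a regular height -/
lemma reg_speed (hX : XS X) {E : ℂ → ℂ} (hE : HBz E) {κ η h T t : ℝ} (hR : Reg X κ η h T t) {y : ℝ}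
    (hy : |y - t| ≤ 5 * h) :
    GG X E h (I * y) ≠ 0 ∧ (1 - η) * (κ * Real.log T) ≤ (logDeriv (GG X E h) (I * y)).re := by
  obtain ⟨h1, h2⟩ := hR y hy
  constructor
  · unfold GG
    refine mul_ne_zero (hE.ne _ (by simp)) ?_
    rwa [add_comm]
  · rw [logDeriv_GG hX hE h y h1, Complex.add_re]
    have h3 := HBz_re hE y
    have h4 := (Complex.abs_re_le_norm (logDeriv X (h + I * y) - ((κ * Real.log T : ℝ) : ℂ))).trans h2
    rw [Complex.sub_re, Complex.ofReal_re, abs_le] at h4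
    linarith [h4.1]

/-- every interval of length `π / ((1 - η) κ log T)` in the window contains a zero -/
lemma reg_zero (hX : XS X) {E : ℂ → ℂ} (hE : HBz E) {κ η h T t : ℝ} (hR : Reg X κ η h T t) {a b : ℝ} (hab : a ≤ b)
    (ha : t - 5 * h ≤ a) (hb : b ≤ t + 5 * h) (hlen : Real.pi ≤ (1 - η) * (κ * Real.log T) * (b - a)) :
    ∃ y ∈ Icc a b, FE X E h (I * y) = 0 := by
  have hin : ∀ y ∈ Icc a b, |y - t| ≤ 5 * h := by
    intro y hy
    rw [abs_le]
    constructor <;> linarith [hy.1, hy.2]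
  exact exists_zero_line hX hE hab (fun y hy => (reg_speed hX hE hR (hin y hy)).1)
    (fun y hy => (reg_speed hX hE hR (hin y hy)).2) hlen

set_option maxHeartbeats 1600000 in
theorem many (hX : XS X) {κ : ℝ} (hκ : 0 < κ) (hg : GoodY κ X) (htop : TopL κ X) :
    ∃ K T0 : ℝ, 1 ≤ K ∧ 2 ≤ T0 ∧ ∀ (T h : ℝ) (E : ℂ → ℂ), T0 ≤ T → 0 < h → h ≤ 1 / 2 →
    K ≤ h * Real.log T → HBz E → ∃ S : Finset ℂ, (∀ s ∈ S, FE X E h s = 0 ∧ s.re = 0 ∧ T < s.im ∧ s.im ≤ 2 * T) ∧
      κ * T * Real.log T / 80 ≤ S.card := by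
  classical
  obtain ⟨c, C, K1, T1, hc, hC, hK1, hT1, hmeas⟩ := reg_meas hX hκ hg htop (η := 1 / 2) (by norm_num)
  refine ⟨max (max K1 (200 / κ)) (Real.log (4 * C) / c), max T1 200, hK1.trans ((le_max_left _ _).trans (le_max_left _ _)),
    hT1.trans (le_max_left _ _), ?_⟩
  intro T h E hT hh hh2 hK hE
  have hTT1 : T1 ≤ T := (le_max_left _ _).trans hT
  have hT200 : 200 ≤ T := (le_max_right _ _).trans hT
  have hT0 : 0 < T := by linarith
  set L := Real.log T with hL
  have hKK1 : K1 ≤ h * L := ((le_max_left _ _).trans (le_max_left _ _)).trans hK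
  have hK200' : 200 / κ ≤ h * L := ((le_max_right _ _).trans (le_max_left _ _)).trans hK
  have hKC : Real.log (4 * C) / c ≤ h * L := (le_max_right _ _).trans hK
  have hL0 : 0 < L := Real.log_pos (by linarith)
  obtain ⟨W, hW⟩ : ∃ W : ℝ, W = κ * L := ⟨_, rfl⟩
  have hW0 : 0 < W := by rw [hW]; positivity
  have hK200 : 200 ≤ h * W := by
    rw [div_le_iff₀ hκ] at hK200'
    rw [hW]; linarith
  have hm := hmeas T h hTT1 hh hh2 hKK1
  have hmb : C * T * Real.exp (-(c * h * L)) ≤ T / 4 := by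
    rw [div_le_iff₀ hc] at hKC
    have h1 : Real.exp (-(c * h * L)) ≤ Real.exp (-Real.log (4 * C)) := by
      apply Real.exp_le_exp.mpr
      have : c * h * L = h * L * c := by ring
      linarith
    rw [Real.exp_neg (Real.log (4 * C)), Real.exp_log (by positivity)] at h1
    calc C * T * Real.exp (-(c * h * L)) ≤ C * T * (4 * C)⁻¹ := mul_le_mul_of_nonneg_left h1 (by positivity)
      _ = T / 4 := by field_simp
  set g := 2 * Real.pi / W with hg
  have hg0 : 0 < g := by have := Real.pi_pos; positivity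
  set m := ⌊5 * h / (2 * g)⌋₊ with hmdef
  have hm1 : (m : ℝ) * (2 * g) ≤ 5 * h := by
    have h1 : (m : ℝ) ≤ 5 * h / (2 * g) := Nat.floor_le (by positivity)
    rwa [le_div_iff₀ (by positivity)] at h1
  have hm2 : h * W / 4 ≤ m := by
    have h1 : 5 * h / (2 * g) < m + 1 := Nat.lt_floor_add_one _
    have h2 : 5 * h / (2 * g) = 5 * (h * W) / (4 * Real.pi) := by
      rw [hg]; field_simp; ring
    rw [h2, div_lt_iff₀ (by have := Real.pi_pos; positivity)] at h1
    have h3 := Real.pi_lt_d2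
    have h4 : (m + 1 : ℝ) * (4 * Real.pi) ≤ (m + 1) * (4 * 3.15) := by
      have : (0 : ℝ) ≤ m := Nat.cast_nonneg m
      gcongr
    nlinarith
  set N := ⌊T / (5 * h)⌋₊ - 1 with hN
  have hquot : 1 ≤ T / (5 * h) := by
    rw [le_div_iff₀ (by positivity)]; linarith
  have hfl : 1 ≤ ⌊T / (5 * h)⌋₊ := by
    rw [Nat.one_le_floor_iff]; exact hquot
  have hNc : (N : ℝ) + 1 = (⌊T / (5 * h)⌋₊ : ℝ) := by
    rw [hN, Nat.cast_sub hfl]; push_cast; ring
  have hN1 : ((N : ℝ) + 1) * (5 * h) ≤ T := by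
    rw [hNc, ← le_div_iff₀ (by positivity)]
    exact Nat.floor_le (by positivity)
  have hN2 : T / (5 * h) - 2 ≤ N := by
    have := Nat.lt_floor_add_one (T / (5 * h))
    rw [← hNc] at this
    linarith
  set a : ℕ → ℝ := fun k => T + 5 * h * (k + 1) with ha
  have haN : ∀ k ∈ Finset.range N, T < a k ∧ a k + 5 * h ≤ 2 * T := by
    intro k hk
    rw [Finset.mem_range] at hk
    have hk' : (k : ℝ) + 1 ≤ N := by exact_mod_cast hk
    simp only [ha]
    constructor
    · have : 0 < 5 * h * ((k : ℝ) + 1) := by positivity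
      linarith
    · have h7 : ((k : ℝ) + 1) * h ≤ N * h := mul_le_mul_of_nonneg_right hk' hh.le
      linarith
  set P : ℕ → Prop := fun k => ∃ t ∈ Ico (a k) (a k + 5 * h), Reg X κ (1 / 2) h T t with hP
  set Gs := (Finset.range N).filter P with hGs
  set B := (Finset.range N).filter (fun k => ¬ P k) with hB
  have hBcard : (B.card : ℝ) * (5 * h) ≤ T / 4 := by
    have hdisj : ∀ k ∈ B, ∀ l ∈ B, k ≠ l → Disjoint (Ico (a k) (a k + 5 * h)) (Ico (a l) (a l + 5 * h)) := by
      intro k _ l _ hkl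
      rw [Set.disjoint_left]
      rintro x ⟨h1, h2⟩ ⟨h3, h4⟩
      simp only [ha] at h1 h2 h3 h4
      rcases lt_or_gt_of_ne hkl with h5 | h5
      · have h6 : (k : ℝ) + 1 ≤ l := by exact_mod_cast h5
        have h7 : ((k : ℝ) + 1) * h ≤ l * h := mul_le_mul_of_nonneg_right h6 hh.le
        linarith
      · have h6 : (l : ℝ) + 1 ≤ k := by exact_mod_cast h5
        have h7 : ((l : ℝ) + 1) * h ≤ k * h := mul_le_mul_of_nonneg_right h6 hh.le
        linarith
    have h1 : volume (⋃ k ∈ B, Ico (a k) (a k + 5 * h)) = ENNReal.ofReal (B.card * (5 * h)) := by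
      rw [measure_biUnion_finset (fun k hk l hl hkl => hdisj k hk l hl hkl) (fun k _ => measurableSet_Ico)]
      simp only [Real.volume_Ico, add_sub_cancel_left]
      rw [Finset.sum_const, nsmul_eq_mul, ENNReal.ofReal_mul (p := (B.card : ℝ)) (by positivity), ENNReal.ofReal_natCast]
    have h2 : (⋃ k ∈ B, Ico (a k) (a k + 5 * h)) ⊆ {t : ℝ | T ≤ t ∧ t ≤ 2 * T ∧ ¬ Reg X κ (1 / 2) h T t} := by
      apply Set.iUnion₂_subset
      intro k hk t ht
      rw [hB, Finset.mem_filter] at hk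
      obtain ⟨h3, h4⟩ := haN k hk.1
      exact ⟨by linarith [ht.1], by linarith [ht.2], fun hR => hk.2 ⟨t, ht, hR⟩⟩
    have h3 := (measure_mono h2).trans hm
    rw [h1] at h3
    have h4 := (ENNReal.ofReal_le_ofReal_iff (by positivity)).1 h3
    linarith
  have hcard : (Gs.card : ℝ) + B.card = N := by
    have h1 := Finset.card_filter_add_card_filter_not (s := Finset.range N) P
    rw [Finset.card_range] at h1
    exact_mod_cast h1
  have hGcard : T / (10 * h) ≤ Gs.card := by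
    have h1 : (B.card : ℝ) ≤ T / (20 * h) := by
      rw [le_div_iff₀ (by positivity)]
      linarith
    have h2 : T / (5 * h) = 4 * (T / (20 * h)) := by field_simp; norm_num
    have h3 : T / (10 * h) = 2 * (T / (20 * h)) := by field_simp; norm_num
    have h4 : 2 ≤ T / (20 * h) := by
      rw [le_div_iff₀ (by positivity)]; linarith
    rw [h3]
    linarith
  have hex : ∀ k ∈ Gs, ∀ j ∈ Finset.range m, ∃ y ∈ Icc (a k + 2 * j * g) (a k + 2 * j * g + g), FE X E h (I * y) = 0 := by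
    intro k hk j hj
    rw [hGs, Finset.mem_filter] at hk
    obtain ⟨t, ht, hR⟩ := hk.2
    rw [Finset.mem_range] at hj
    have hj' : (j : ℝ) + 1 ≤ m := by exact_mod_cast hj
    have h1 : 2 * (j : ℝ) * g + g ≤ 5 * h := by
      have h2 : ((j : ℝ) + 1) * g ≤ m * g := mul_le_mul_of_nonneg_right hj' hg0.le
      linarith
    have h2 : 0 ≤ 2 * (j : ℝ) * g := by positivity
    refine reg_zero hX hE hR (by linarith) (by linarith [ht.2]) (by linarith [ht.1]) ?_
    have h3 : (1 - 1 / 2) * (κ * Real.log T) * (a k + 2 * j * g + g - (a k + 2 * j * g)) = Real.pi := by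
      rw [← hL, ← hW, hg]
      field_simp
      ring
    rw [h3]
  choose! Y hY hYz using hex
  have hYb : ∀ k ∈ Gs, ∀ j ∈ Finset.range m, Y k j < a k + 5 * h := by
    intro k hk j hj
    have h1 := (hY k hk j hj).2
    rw [Finset.mem_range] at hj
    have hj' : (j : ℝ) + 1 ≤ m := by exact_mod_cast hj
    have h2 : ((j : ℝ) + 1) * g ≤ m * g := mul_le_mul_of_nonneg_right hj' hg0.le
    linarith
  have hYa : ∀ k ∈ Gs, ∀ j ∈ Finset.range m, a k ≤ Y k j := by
    intro k hk j hj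
    have h1 := (hY k hk j hj).1
    have h2 : 0 ≤ 2 * (j : ℝ) * g := by positivity
    linarith
  have hlt : ∀ k ∈ Gs, ∀ j ∈ Finset.range m, ∀ k' ∈ Gs, ∀ j' ∈ Finset.range m, (k < k' ∨ (k = k' ∧ j < j')) →
      Y k j < Y k' j' := by
    intro k hk j hj k' hk' j' hj' hlt
    rcases hlt with h1 | ⟨h1, h2⟩
    · have h3 : (k : ℝ) + 1 ≤ k' := by exact_mod_cast h1
      have h4 : a k + 5 * h ≤ a k' := by
        simp only [ha]
        have h6 : ((k : ℝ) + 1) * h ≤ k' * h := mul_le_mul_of_nonneg_right h3 hh.le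
        linarith
      linarith [hYb k hk j hj, hYa k' hk' j' hj']
    · subst h1
      have h3 : (j : ℝ) + 1 ≤ j' := by exact_mod_cast h2
      have h4 := (hY k hk j hj).2
      have h5 := (hY k hk j' hj').1
      have h6 : ((j : ℝ) + 1) * g ≤ j' * g := mul_le_mul_of_nonneg_right h3 hg0.le
      linarith
  have hinj : Set.InjOn (fun p : ℕ × ℕ => (I * (Y p.1 p.2 : ℂ) : ℂ)) (Gs ×ˢ Finset.range m : Finset (ℕ × ℕ)) := by
    rintro ⟨k, j⟩ h1 ⟨k', j'⟩ h2 h3
    rw [Finset.mem_coe, Finset.mem_product] at h1 h2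
    simp only at h1 h2 h3
    have h4 : Y k j = Y k' j' := by
      have := congrArg Complex.im h3
      simpa using this
    rcases lt_trichotomy k k' with h5 | h5 | h5
    · exact absurd h4 (hlt k h1.1 j h1.2 k' h2.1 j' h2.2 (Or.inl h5)).ne
    · rcases lt_trichotomy j j' with h6 | h6 | h6
      · exact absurd h4 (hlt k h1.1 j h1.2 k' h2.1 j' h2.2 (Or.inr ⟨h5, h6⟩)).ne
      · rw [h5, h6]
      · exact absurd h4.symm (hlt k' h2.1 j' h2.2 k h1.1 j h1.2 (Or.inr ⟨h5.symm, h6⟩)).ne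
    · exact absurd h4.symm (hlt k' h2.1 j' h2.2 k h1.1 j h1.2 (Or.inl h5)).ne
  refine ⟨(Gs ×ˢ Finset.range m).image (fun p : ℕ × ℕ => (I * (Y p.1 p.2 : ℂ) : ℂ)), ?_, ?_⟩
  · intro s hs
    rw [Finset.mem_image] at hs
    obtain ⟨⟨k, j⟩, h1, rfl⟩ := hs
    rw [Finset.mem_product] at h1
    have hk := h1.1
    rw [hGs, Finset.mem_filter] at hk
    obtain ⟨h3, h4⟩ := haN k hk.1
    refine ⟨hYz k h1.1 j h1.2, by simp, ?_, ?_⟩
    · have := hYa k h1.1 j h1.2
      simp; linarith
    · have := hYb k h1.1 j h1.2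
      simp; linarith
  · rw [Finset.card_image_of_injOn hinj, Finset.card_product, Finset.card_range]
    push_cast
    have h1 : T / (10 * h) * (h * W / 4) ≤ (Gs.card : ℝ) * m := by
      apply mul_le_mul hGcard hm2 (by positivity) (by positivity)
    have h2 : T / (10 * h) * (h * W / 4) = κ * T * L / 40 := by rw [hW]; field_simp; norm_num
    have h3 : 0 ≤ κ * T * L := by positivity
    linarith

end

end Pool.Agent.K3h34.DL
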