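import Pool.Agent.K3h34.DL.Main

set_option autoImplicit false

/-! The measure of the heights near zeros far from the line. -/

namespace Pool.Agent.K3h34.DL

open Complex Filter Topology MeasureTheory Set
open Pool.Agent.K3h34.DX (Ent cnt ord_pos)

noncomputable section

variable {X : ℂ → ℂ}

/-- density of zeros -/
def Dens (c0 : ℝ) (X : ℂ → ℂ) : Prop := ∀ c : ℝ, c < c0 → ∃ C : ℝ, 0 < C ∧ ∀ d T : ℝ, 0 ≤ d → 2 ≤ T →
  ∀ S : Finset ℂ, (∀ s ∈ S, X s = 0 ∧ d ≤ |s.re| ∧ 0 < s.im ∧ s.im ≤ T) →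
    ∑ s ∈ S, (analyticOrderNatAt X s : ℝ) ≤ C * T ^ (1 - c * d) * Real.log T

/-- `t` is within `7 |Re b|` of the height of a zero `b` at distance at least `h` from the line -/
def BadK (X : ℂ → ℂ) (h t : ℝ) : Prop := ∃ b : ℂ, X b = 0 ∧ h ≤ |b.re| ∧ |t - b.im| ≤ 7 * |b.re|

theorem meas_bad (hX : XS X) {c0 : ℝ} (hd : Dens c0 X) (hc00 : 0 < c0) (hc04 : c0 ≤ 4 / 3) {c : ℝ} (hc : c < c0) :
    ∃ C : ℝ, 0 < C ∧ ∀ h T : ℝ, 0 ≤ h → h ≤ 1 / 2 → 2 ≤ T →
    volume {t : ℝ | 0 ≤ t ∧ t ≤ T ∧ BadK X h t} ≤ ENNReal.ofReal (C * T ^ (1 - c * h)) := by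
  classical
  obtain ⟨c', hc'0, hcc', hc'1⟩ : ∃ c' : ℝ, 0 < c' ∧ c < c' ∧ c' < c0 := by
    refine ⟨max ((c + c0) / 2) (c0 / 2), ?_, ?_, ?_⟩
    · exact lt_of_lt_of_le (by linarith) (le_max_right _ _)
    · exact lt_of_lt_of_le (by linarith) (le_max_left _ _)
    · exact max_lt (by linarith) (by linarith)
  obtain ⟨C, hC, hD⟩ := hd c' hc'1
  set δ : ℝ := c' - c with hδ
  have hδ0 : 0 < δ := by rw [hδ]; linarith
  refine ⟨24 + 14 * (C * 3 ^ (1 + |c|) * (1 / δ + 1 / c')), by positivity, fun h T h0 h12 hT => ?_⟩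
  have hT0 : 0 < T := by linarith
  set T' : ℝ := T + 4 with hT'
  have hT'2 : 2 ≤ T' := by rw [hT']; linarith
  have hT'0 : 0 < T' := by linarith
  set L := Real.log T' with hL
  have hL0 : 0 < L := Real.log_pos (by linarith)
  have hexp : 0 ≤ 1 - c * h := by
    have h1 : c * h ≤ 4 / 3 * h := mul_le_mul_of_nonneg_right (by linarith) h0
    linarith
  obtain ⟨Z0, hZ0⟩ := hX.ent.exS (U := Metric.ball 0 (T' + 2)) Metric.isBounded_ball
  set Z := Z0.filter (fun b => h ≤ |b.re| ∧ 0 < b.im ∧ b.im ≤ T') with hZ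
  have hmem : ∀ b, b ∈ Z ↔ X b = 0 ∧ h ≤ |b.re| ∧ 0 < b.im ∧ b.im ≤ T' := fun b => by
    rw [hZ, Finset.mem_filter, hZ0]
    constructor
    · rintro ⟨⟨_, a⟩, b⟩; exact ⟨a, b⟩
    · rintro ⟨a, b1, b2, b3⟩
      refine ⟨⟨subset_closure ?_, a⟩, b1, b2, b3⟩
      rw [mem_ball_zero_iff]
      refine (Complex.norm_le_abs_re_add_abs_im _).trans_lt ?_
      have := hX.strip b a
      rw [abs_of_pos b2]
      linarith
  have hcnt : ∀ u : ℝ, h ≤ u → ((Z.filter (fun b => u ≤ |b.re|)).card : ℝ) ≤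
      (C * T' * L) * Real.exp (-((c' * L) * u)) := by
    intro u hu
    have hu0 : 0 ≤ u := h0.trans hu
    have h1 := hD u T' hu0 hT'2 (Z.filter (fun b => u ≤ |b.re|)) (fun s hs => by
      rw [Finset.mem_filter, hmem] at hs
      exact ⟨hs.1.1, hs.2, hs.1.2.2⟩)
    have h2 : ((Z.filter (fun b => u ≤ |b.re|)).card : ℝ) ≤
        ∑ s ∈ Z.filter (fun b => u ≤ |b.re|), (analyticOrderNatAt X s : ℝ) := by
      calc ((Z.filter (fun b => u ≤ |b.re|)).card : ℝ) = ∑ s ∈ Z.filter (fun b => u ≤ |b.re|), (1 : ℝ) := by simp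
        _ ≤ _ := by
          refine Finset.sum_le_sum fun s hs => ?_
          rw [Finset.mem_filter, hmem] at hs
          exact_mod_cast ord_pos hX.ent hs.1.1
    refine h2.trans (h1.trans (le_of_eq ?_))
    have h3 : T' ^ (1 - c' * u) = T' * Real.exp (-((c' * L) * u)) := by
      rw [Real.rpow_def_of_pos hT'0]
      have : Real.log T' * (1 - c' * u) = Real.log T' + -((c' * L) * u) := by
        rw [hL]; ring
      rw [this, Real.exp_add, Real.exp_log hT'0]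
    rw [h3]; ring
  have hsum := Pool.Agent.Y22.RX.sum_le Z (fun b => |b.re|) (h0 := h) (A := C * T' * L) (a := c' * L)
    (by positivity) h0 (by positivity) (fun b hb => ((hmem b).mp hb).2.1) hcnt
  -- cover
  have hsub : {t : ℝ | 0 ≤ t ∧ t ≤ T ∧ BadK X h t} ⊆ Set.Icc 0 24 ∪ ⋃ b ∈ Z, Set.Icc (b.im - 7 * |b.re|) (b.im + 7 * |b.re|) := by
    rintro t ⟨ht0, htT, hbad⟩
    rcases le_or_gt t 24 with h24 | h24
    · exact Or.inl ⟨ht0, h24⟩
    · right
      obtain ⟨ρ, h1, h3, h2⟩ := hbad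
      have h4 := hX.strip ρ h1
      rw [abs_le] at h2
      refine Set.mem_biUnion (x := ρ) ?_ ⟨by linarith, by linarith⟩
      rw [Finset.mem_coe, hmem]
      exact ⟨h1, h3, by linarith, by rw [hT']; linarith⟩
  refine (measure_mono hsub).trans ((measure_union_le _ _).trans ?_)
  have h5 : volume (⋃ b ∈ Z, Set.Icc (b.im - 7 * |b.re|) (b.im + 7 * |b.re|)) ≤
      ENNReal.ofReal (14 * ∑ b ∈ Z, |b.re|) := by
    refine (measure_biUnion_finset_le Z _).trans (le_of_eq ?_)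
    rw [Finset.mul_sum, ENNReal.ofReal_sum_of_nonneg (fun b _ => by positivity)]
    refine Finset.sum_congr rfl fun b _ => ?_
    rw [Real.volume_Icc]
    congr 1
    ring
  have hpow : T' ^ (1 - c * h) ≤ 3 ^ (1 + |c|) * T ^ (1 - c * h) := by
    calc T' ^ (1 - c * h) ≤ (3 * T) ^ (1 - c * h) := Real.rpow_le_rpow hT'0.le (by rw [hT']; linarith) hexp
      _ = 3 ^ (1 - c * h) * T ^ (1 - c * h) := Real.mul_rpow (by norm_num) hT0.le
      _ ≤ 3 ^ (1 + |c|) * T ^ (1 - c * h) := by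
        refine mul_le_mul_of_nonneg_right ?_ (by positivity)
        refine Real.rpow_le_rpow_of_exponent_le (by norm_num) ?_
        have h6 : -(c * h) ≤ |c| := by
          have := abs_nonneg c
          have h7 := neg_abs_le c
          nlinarith
        linarith
  have hT1 : 1 ≤ T ^ (1 - c * h) := Real.one_le_rpow (by linarith) hexp
  have hbound : 14 * ∑ b ∈ Z, |b.re| ≤ 14 * (C * 3 ^ (1 + |c|) * (1 / δ + 1 / c')) * T ^ (1 - c * h) := by
    have h6 : C * T' * L * Real.exp (-(c' * L * h)) * (h + 1 / (c' * L)) =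
        C * T' * Real.exp (-(c * L * h)) * (L * h * Real.exp (-(δ * (L * h))) + Real.exp (-(δ * (L * h))) / c') := by
      have e1 : Real.exp (-(c' * L * h)) = Real.exp (-(c * L * h)) * Real.exp (-(δ * (L * h))) := by
        rw [← Real.exp_add]; congr 1; rw [hδ]; ring
      rw [e1]
      field_simp
    have h7 : L * h * Real.exp (-(δ * (L * h))) ≤ 1 / δ := by
      have h8 := Real.add_one_le_exp (δ * (L * h))
      have h9 : 0 ≤ L * h := mul_nonneg hL0.le h0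
      have h10 : Real.exp (-(δ * (L * h))) * Real.exp (δ * (L * h)) = 1 := by
        rw [← Real.exp_add]; simp
      have h11 : 0 < Real.exp (-(δ * (L * h))) := Real.exp_pos _
      rw [le_div_iff₀ hδ0]
      nlinarith
    have h8 : Real.exp (-(δ * (L * h))) ≤ 1 := by
      rw [Real.exp_le_one_iff]
      have h9 : 0 ≤ L * h := mul_nonneg hL0.le h0
      nlinarith
    have h9 : T' * Real.exp (-(c * L * h)) = T' ^ (1 - c * h) := by
      rw [Real.rpow_def_of_pos hT'0]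
      have : Real.log T' * (1 - c * h) = Real.log T' + -(c * L * h) := by rw [hL]; ring
      rw [this, Real.exp_add, Real.exp_log hT'0]
    have h10 : ∑ b ∈ Z, |b.re| ≤ C * T' ^ (1 - c * h) * (1 / δ + 1 / c') := by
      refine hsum.trans ?_
      rw [h6]
      have e2 : C * T' * Real.exp (-(c * L * h)) = C * T' ^ (1 - c * h) := by rw [mul_assoc, h9]
      rw [e2]
      gcongr
    calc 14 * ∑ b ∈ Z, |b.re| ≤ 14 * (C * T' ^ (1 - c * h) * (1 / δ + 1 / c')) := by linarith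
      _ ≤ 14 * (C * (3 ^ (1 + |c|) * T ^ (1 - c * h)) * (1 / δ + 1 / c')) := by gcongr
      _ = _ := by ring
  have hfinal : (24 : ℝ) + 14 * ∑ b ∈ Z, |b.re| ≤ (24 + 14 * (C * 3 ^ (1 + |c|) * (1 / δ + 1 / c'))) * T ^ (1 - c * h) := by
    nlinarith
  have hnn : 0 ≤ 14 * ∑ b ∈ Z, |b.re| :=
    mul_nonneg (by norm_num) (Finset.sum_nonneg fun b _ => abs_nonneg _)
  calc volume (Set.Icc (0 : ℝ) 24) + volume (⋃ b ∈ Z, Set.Icc (b.im - 7 * |b.re|) (b.im + 7 * |b.re|))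
      ≤ ENNReal.ofReal 24 + ENNReal.ofReal (14 * ∑ b ∈ Z, |b.re|) := by
        refine add_le_add (le_of_eq ?_) h5
        rw [Real.volume_Icc, sub_zero]
    _ = ENNReal.ofReal (24 + 14 * ∑ b ∈ Z, |b.re|) := (ENNReal.ofReal_add (by norm_num) hnn).symm
    _ ≤ _ := ENNReal.ofReal_le_ofReal hfinal

lemma clr_of_not_bad {h t Y : ℝ} (hb : ¬ BadK X h t) (hY : |Y - t| ≤ 6 * h) : Clr X h Y := by
  intro b h0 h1
  by_contra hcon
  push Not at hcon
  apply hb
  refine ⟨b, h0, h1, ?_⟩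
  have h2 : |t - b.im| ≤ |Y - t| + |Y - b.im| := by
    have : t - b.im = -(Y - t) + (Y - b.im) := by ring
    rw [this]
    refine (abs_add_le _ _).trans ?_
    rw [abs_neg]
  linarith

end

end Pool.Agent.K3h34.DL
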