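import Pool.Agent.K3h34.DL.Meas

set_option autoImplicit false

/-!
# The argument on the line: gaps between zeros
-/

namespace Pool.Agent.K3h34.DL

open Complex Filter Topology MeasureTheory Set
open Pool.Agent.K3h34.DX (Ent cnt HBz phase_rep re_int sh FF)

noncomputable section

variable {X : ℂ → ℂ}

/-- on the line the function is twice the real part -/
lemma FE_line (X E : ℂ → ℂ) (h : ℝ) (y : ℝ) : FE X E h (I * y) = ((2 * (GG X E h (I * y)).re : ℝ) : ℂ) := by
  unfold FE FF sh
  have : -(starRingEnd ℂ) (I * (y : ℂ)) = I * y := by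
    rw [map_mul, Complex.conj_I, Complex.conj_ofReal]; ring
  rw [this, map_one, one_mul, one_mul, Complex.add_conj]

/-- a lower bound for the speed of the argument gives zeros -/
theorem exists_zero_line (hX : XS X) {E : ℂ → ℂ} (hE : HBz E) {h : ℝ} {a b m : ℝ} (hab : a ≤ b)
    (h0 : ∀ y ∈ Icc a b, GG X E h (I * y) ≠ 0)
    (hm : ∀ y ∈ Icc a b, m ≤ (logDeriv (GG X E h) (I * y)).re) (hlen : Real.pi ≤ m * (b - a)) :
    ∃ y ∈ Icc a b, FE X E h (I * y) = 0 := by
  set G := GG X E h with hG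
  have hGd : Differentiable ℂ G := GG_diff hX hE h
  have hrep := phase_rep hGd h0
  set ψ : ℝ → ℝ := fun y => (G (I * a)).arg + ∫ s in a..y, (logDeriv G (I * s)).re with hψ
  have hcont0 := (re_int hGd hab h0).2
  have hψc : ContinuousOn ψ (Icc a b) := by
    apply ContinuousOn.add continuousOn_const
    have := intervalIntegral.continuousOn_primitive_interval (μ := volume) (f := fun s : ℝ => (logDeriv G (I * s)).re)
      (a := a) (b := b) (by
        rw [uIcc_of_le hab]
        exact hcont0.integrableOn_Icc)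
    rwa [uIcc_of_le hab] at this
  have hψb : ψ a + Real.pi ≤ ψ b := by
    have h1 : ∫ s in a..b, m ≤ ∫ s in a..b, (logDeriv G (I * s)).re := by
      apply intervalIntegral.integral_mono_on hab intervalIntegrable_const
      · apply ContinuousOn.intervalIntegrable; rwa [uIcc_of_le hab]
      · exact hm
    rw [intervalIntegral.integral_const, smul_eq_mul] at h1
    simp only [hψ, intervalIntegral.integral_same]
    linarith
  -- a multiple of π plus π/2
  obtain ⟨n, hn1, hn2⟩ : ∃ n : ℤ, ψ a ≤ (n : ℝ) * Real.pi + Real.pi / 2 ∧ (n : ℝ) * Real.pi + Real.pi / 2 ≤ ψ a + Real.pi := by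
    refine ⟨⌈(ψ a - Real.pi / 2) / Real.pi⌉, ?_, ?_⟩
    · have h1 := Int.le_ceil ((ψ a - Real.pi / 2) / Real.pi)
      rw [div_le_iff₀ Real.pi_pos] at h1
      linarith
    · have h1 := (Int.ceil_lt_add_one ((ψ a - Real.pi / 2) / Real.pi)).le
      have h2 : (ψ a - Real.pi / 2) / Real.pi * Real.pi = ψ a - Real.pi / 2 := by
        field_simp
      nlinarith [Real.pi_pos]
  obtain ⟨y, hy, hyn⟩ := intermediate_value_Icc hab hψc ⟨hn1, hn2.trans hψb⟩
  refine ⟨y, hy, ?_⟩
  rw [FE_line]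
  have h1 := hrep y hy
  have h2 := (re_int hGd hy.1 (fun s hs => h0 s ⟨hs.1, hs.2.trans hy.2⟩)).1
  set Λ := ∫ s in a..y, logDeriv G (I * s) with hΛ
  have h3 : G (I * a) * cexp (I * Λ) = ((‖G (I * a)‖ * Real.exp (-Λ.im) : ℝ) : ℂ) * cexp (((ψ y : ℝ) : ℂ) * I) := by
    have e1 := Complex.norm_mul_exp_arg_mul_I (G (I * a))
    have e2 : ψ y = (G (I * a)).arg + Λ.re := by
      simp only [hψ]; rw [h2]
    rw [e2]
    nth_rewrite 1 [← e1]
    push_cast
    rw [mul_assoc, ← Complex.exp_add, mul_assoc, ← Complex.exp_add]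
    congr 2
    have e3 : Λ = Λ.re + Λ.im * I := (Complex.re_add_im Λ).symm
    nth_rewrite 1 [e3]
    linear_combination (Λ.im : ℂ) * I_mul_I
  have h4 : (G (I * y)).re = ‖G (I * a)‖ * Real.exp (-Λ.im) * Real.cos (ψ y) := by
    rw [h1, h3, Complex.re_ofReal_mul, Complex.exp_ofReal_mul_I_re]
  have h5 : Real.cos (ψ y) = 0 := by
    rw [hyn]
    rw [Real.cos_eq_zero_iff]
    exact ⟨n, by ring⟩
  rw [h4, h5, mul_zero, mul_zero]
  simp

/-- an upper bound for the speed of the argument separates zeros -/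
theorem sep_zeros (hX : XS X) {E : ℂ → ℂ} (hE : HBz E) {h : ℝ} {a b M : ℝ} (hab : a < b)
    (h0 : ∀ y ∈ Icc a b, GG X E h (I * y) ≠ 0)
    (hm : ∀ y ∈ Icc a b, 0 < (logDeriv (GG X E h) (I * y)).re ∧ (logDeriv (GG X E h) (I * y)).re ≤ M)
    (hlen : M * (b - a) < Real.pi) (ha : FE X E h (I * a) = 0) (hb : FE X E h (I * b) = 0) : False := by
  set G := GG X E h with hG
  have hGd : Differentiable ℂ G := GG_diff hX hE h
  have hrep := phase_rep hGd h0 b (right_mem_Icc.2 hab.le)
  obtain ⟨h2, hcont⟩ := re_int hGd hab.le h0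
  set Λ := ∫ s in a..b, logDeriv G (I * s) with hΛ
  have hre : ∀ y : ℝ, FE X E h (I * y) = 0 → (G (I * y)).re = 0 := by
    intro y hy
    rw [FE_line] at hy
    have h3 : 2 * (GG X E h (I * y)).re = 0 := by exact_mod_cast hy
    simpa [hG] using h3
  have ha' := hre a ha
  have hb' := hre b hb
  have hint : IntervalIntegrable (fun s : ℝ => (logDeriv G (I * s)).re) volume a b := by
    apply ContinuousOn.intervalIntegrable; rwa [uIcc_of_le hab.le]
  have hup : Λ.re < Real.pi := by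
    rw [h2]
    have h1 : ∫ s in a..b, (logDeriv G (I * s)).re ≤ ∫ s in a..b, M :=
      intervalIntegral.integral_mono_on hab.le hint intervalIntegrable_const (fun y hy => (hm y hy).2)
    rw [intervalIntegral.integral_const, smul_eq_mul] at h1
    linarith
  have hlo : 0 < Λ.re := by
    rw [h2]
    exact intervalIntegral.intervalIntegral_pos_of_pos_on hint (fun y hy => (hm y (Ioo_subset_Icc_self hy)).1) hab
  have hga : (G (I * a)).im ≠ 0 := by
    intro h3
    exact h0 a (left_mem_Icc.2 hab.le) (Complex.ext ha' h3)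
  have h4 : G (I * a) = ((G (I * a)).im : ℂ) * I := by
    apply Complex.ext <;> simp [ha']
  have h5 : (G (I * b)).re = -((G (I * a)).im * (Real.exp (-Λ.im) * Real.sin Λ.re)) := by
    generalize (G (I * a)).im = g at h4
    rw [hrep, h4]
    have e1 : cexp (I * Λ) = ((Real.exp (-Λ.im) : ℝ) : ℂ) * cexp (((Λ.re : ℝ) : ℂ) * I) := by
      push_cast
      rw [← Complex.exp_add]
      congr 1
      have e3 : Λ = Λ.re + Λ.im * I := (Complex.re_add_im Λ).symm
      nth_rewrite 1 [e3]
      linear_combination (Λ.im : ℂ) * I_mul_I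
    rw [e1]
    have e2 : ((g : ℂ) * I) * (((Real.exp (-Λ.im) : ℝ) : ℂ) * cexp (((Λ.re : ℝ) : ℂ) * I)) =
        ((g * Real.exp (-Λ.im) : ℝ) : ℂ) * (I * cexp (((Λ.re : ℝ) : ℂ) * I)) := by
      push_cast; ring
    rw [e2, Complex.re_ofReal_mul, Complex.I_mul_re, Complex.exp_ofReal_mul_I_im]
    ring
  rw [hb'] at h5
  have h6 : 0 < Real.sin Λ.re := Real.sin_pos_of_pos_of_lt_pi hlo hup
  have h7 : (G (I * a)).im * (Real.exp (-Λ.im) * Real.sin Λ.re) ≠ 0 :=
    mul_ne_zero hga (mul_pos (Real.exp_pos _) h6).ne'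
  exact h7 (by linarith)

lemma logDeriv_GG (hX : XS X) {E : ℂ → ℂ} (hE : HBz E) (h y : ℝ) (h0 : X (h + I * y) ≠ 0) :
    logDeriv (GG X E h) (I * y) = logDeriv E (I * y) + logDeriv X (h + I * y) := by
  have hne : E (I * y) ≠ 0 := hE.ne _ (by simp)
  have hX' : X (I * y + h) ≠ 0 := by rwa [add_comm]
  have e : GG X E h = fun z => E z * X (z + h) := rfl
  rw [e, logDeriv_mul (I * (y : ℂ)) hne hX' (hE.diff _) ((shift_diff hX h) _)]
  congr 1
  rw [logDeriv_apply, logDeriv_apply, add_comm (h : ℂ) (I * y)]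
  congr 1
  exact deriv_comp_add_const X (h : ℂ) (I * y)

end

end Pool.Agent.K3h34.DL
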