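import Pool.Agent.K3h34.DL.Phase
import Pool.Agent.Y693.GL.Gy

set_option autoImplicit false

/-!
# Almost all heights are regular at scale `h`
-/

namespace Pool.Agent.K3h34.DL

open Complex Filter Topology MeasureTheory Set
open Pool.Agent.H24R2.DZ (NN)
open Pool.Agent.Y693.GL (GoodY)
open Pool.Agent.Y671.GL (TopL FarL)

noncomputable section

variable {X : ℂ → ℂ}

/-- on the segment of half-length `5h` at distance `h` from the line, the logarithmic derivative is
close to `κ log T` -/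
def Reg (X : ℂ → ℂ) (κ η h T t : ℝ) : Prop := ∀ y : ℝ, |y - t| ≤ 5 * h →
  X (h + I * y) ≠ 0 ∧ ‖logDeriv X (h + I * y) - ((κ * Real.log T : ℝ) : ℂ)‖ ≤ η * (κ * Real.log T)

lemma reg_of_NN (hX : XS X) {κ η h T t : ℝ} (hh : 0 < h)
    (hN : NN (h * (κ * Real.log T)) η (fun z => X (I * t + h * z))) : Reg X κ η h T t := by
  intro y hy
  set z : ℂ := 1 + I * (((y - t) / h : ℝ) : ℂ) with hz
  have hzre : z.re = 1 := by simp [hz]
  have hznorm : ‖z‖ ≤ 20 := by
    have h1 : ‖z‖ ≤ ‖(1 : ℂ)‖ + ‖I * (((y - t) / h : ℝ) : ℂ)‖ := norm_add_le _ _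
    rw [norm_one, norm_mul, Complex.norm_I, one_mul, Complex.norm_real, Real.norm_eq_abs, abs_div,
      abs_of_pos hh] at h1
    have h2 : |y - t| / h ≤ 5 := by
      rw [div_le_iff₀ hh]; exact hy
    linarith
  have e : (I * t + h * z : ℂ) = h + I * y := by
    rw [hz]
    have hh' : (h : ℂ) ≠ 0 := by exact_mod_cast hh.ne'
    push_cast
    field_simp
    ring
  obtain ⟨h1, h2⟩ := hN.far z (by rw [hzre]; norm_num) hznorm
  simp only [e] at h1
  refine ⟨h1, ?_⟩
  have h3 : logDeriv (fun z : ℂ => X (I * t + h * z)) z = h * logDeriv X (h + I * y) := by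
    have hd : HasDerivAt (fun z : ℂ => (I * t + h * z : ℂ)) (h : ℂ) z := by
      simpa using ((hasDerivAt_id z).const_mul (h : ℂ)).const_add (I * (t : ℂ))
    have hd2 : HasDerivAt (fun z : ℂ => X (I * t + h * z)) (deriv X (I * t + h * z) * h) z :=
      (hX.sy.diff _).hasDerivAt.comp z hd
    rw [logDeriv_apply, hd2.deriv, logDeriv_apply, e]
    ring
  rw [h3] at h2
  have h4 : (h : ℂ) * logDeriv X (h + I * y) - ((h * (κ * Real.log T) : ℝ) : ℂ) =
      h * (logDeriv X (h + I * y) - ((κ * Real.log T : ℝ) : ℂ)) := by push_cast; ring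
  rw [h4, norm_mul, Complex.norm_real, Real.norm_eq_abs, abs_of_pos hh] at h2
  have h5 : h * ‖logDeriv X (h + I * y) - ((κ * Real.log T : ℝ) : ℂ)‖ ≤ h * (η * (κ * Real.log T)) := by linarith
  exact le_of_mul_le_mul_left h5 hh

lemma reg_of_far {κ η h T t h0 : ℝ} (hκ : 0 < κ) (hη : 0 < η) (hT : 2 ≤ T) (ht1 : T ≤ t) (ht2 : t ≤ 2 * T)
    (hh0 : 0 < h0) (hh : h0 ≤ h) (hh2 : h ≤ 1 / 2) (hlog : Real.log 2 ≤ η / 2 * Real.log T)
    (hN : FarL κ X 10 h0 (η * κ / 4) t) : Reg X κ η h T t := by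
  intro y hy
  have hO : 0 < Real.log T := Real.log_pos (by linarith)
  have e : (I * t + (h + I * ((y - t : ℝ) : ℂ)) : ℂ) = h + I * y := by push_cast; ring
  have hhp : 0 < h := lt_of_lt_of_le hh0 hh
  obtain ⟨h1, h2⟩ := hN (h + I * ((y - t : ℝ) : ℂ)) (by simp; linarith) (by
    refine (norm_add_le _ _).trans ?_
    rw [norm_mul, Complex.norm_I, one_mul, Complex.norm_real, Complex.norm_real, Real.norm_eq_abs, Real.norm_eq_abs,
      abs_of_pos hhp]
    linarith)
  rw [e] at h1 h2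
  refine ⟨h1, ?_⟩
  have ht0 : 0 < t := by linarith
  have h3 : Real.log T ≤ Real.log t := Real.log_le_log (by linarith) ht1
  have h4 : Real.log t ≤ Real.log T + Real.log 2 := by
    have := Real.log_le_log ht0 ht2
    rw [Real.log_mul (by norm_num) (by linarith)] at this
    linarith
  have h5 : ‖logDeriv X (h + I * y) - ((κ * Real.log T : ℝ) : ℂ)‖ ≤
      ‖logDeriv X (h + I * y) - ((κ * Real.log t : ℝ) : ℂ)‖ + κ * (Real.log t - Real.log T) := by
    have e1 : logDeriv X (h + I * y) - ((κ * Real.log T : ℝ) : ℂ) =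
        (logDeriv X (h + I * y) - ((κ * Real.log t : ℝ) : ℂ)) + ((κ * (Real.log t - Real.log T) : ℝ) : ℂ) := by
      push_cast; ring
    rw [e1]
    refine (norm_add_le _ _).trans ?_
    rw [Complex.norm_real, Real.norm_eq_abs, abs_of_nonneg (mul_nonneg hκ.le (by linarith))]
  have h6 : Real.log t ≤ 2 * Real.log T := by
    have h7 : Real.log 2 ≤ Real.log T := Real.log_le_log (by norm_num) hT
    linarith
  have h8 : η * κ / 4 * Real.log t ≤ η * κ / 4 * (2 * Real.log T) := mul_le_mul_of_nonneg_left h6 (by positivity)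
  have h9 : κ * (Real.log t - Real.log T) ≤ κ * (η / 2 * Real.log T) := mul_le_mul_of_nonneg_left (by linarith) hκ.le
  calc _ ≤ _ := h5
    _ ≤ η * κ / 4 * (2 * Real.log T) + κ * (η / 2 * Real.log T) := by linarith
    _ = η * (κ * Real.log T) := by ring

theorem reg_meas (hX : XS X) {κ : ℝ} (hκ : 0 < κ) (hg : GoodY κ X) (htop : TopL κ X) {η : ℝ} (hη : 0 < η) :
    ∃ c C K T0 : ℝ, 0 < c ∧ 0 < C ∧ 1 ≤ K ∧ 2 ≤ T0 ∧ ∀ T h : ℝ, T0 ≤ T → 0 < h → h ≤ 1 / 2 → K ≤ h * Real.log T →
    volume {t : ℝ | T ≤ t ∧ t ≤ 2 * T ∧ ¬ Reg X κ η h T t} ≤ ENNReal.ofReal (C * T * Real.exp (-(c * h * Real.log T))) := by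
  set h0 : ℝ := min (1 / 100) (1 / (100 * κ)) with hh0
  have hh0p : 0 < h0 := lt_min (by norm_num) (by positivity)
  obtain ⟨c1, C1, a1, T1, hc1, hC1, ha1, hT1, h1⟩ := hg η hη
  obtain ⟨c3, C3, T3, hc3, hC3, hT3, h3⟩ := htop 10 h0 (η * κ / 4) (by norm_num) hh0p (by positivity)
  set T4 := Real.exp (2 * Real.log 2 / η) with hT4
  refine ⟨min (c1 * κ) (2 * c3), max C1 C3, max 1 (a1 / κ), max T1 (max T3 T4), lt_min (by positivity) (by linarith),
    lt_max_of_lt_left hC1, le_max_left _ _, hT1.trans (le_max_left _ _), ?_⟩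
  intro T h hT hh hh2 hK
  have hTT1 : T1 ≤ T := (le_max_left _ _).trans hT
  have hTT3 : T3 ≤ T := ((le_max_left _ _).trans (le_max_right _ _)).trans hT
  have hTT4 : T4 ≤ T := ((le_max_right _ _).trans (le_max_right _ _)).trans hT
  have hT2' : 2 ≤ T := hT1.trans hTT1
  have hT0 : 0 < T := by linarith
  have hlog0 : 0 < Real.log T := Real.log_pos (by linarith)
  have hl : 0 ≤ h * Real.log T := by positivity
  rcases le_or_gt h h0 with h100 | h100
  · have hKa1 : a1 / κ ≤ h * Real.log T := (le_max_right _ _).trans hK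
    have ha : a1 ≤ h * (κ * Real.log T) := by
      rw [div_le_iff₀ hκ] at hKa1
      linarith
    have hr1 : h ≤ 1 / 100 := h100.trans (min_le_left _ _)
    have hr2 : κ * h ≤ 1 / 100 := by
      have := h100.trans (min_le_right _ _)
      rw [le_div_iff₀ (by positivity)] at this
      linarith
    have hm := h1 T (h * (κ * Real.log T)) h hTT1 ha hh hr1 hr2 (by
      rw [show κ * h * Real.log T - h * (κ * Real.log T) = 0 by ring, abs_zero]; positivity)
    refine (measure_mono ?_).trans (hm.trans (ENNReal.ofReal_le_ofReal ?_))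
    · rintro t ⟨ht1, ht2, ht3⟩
      exact ⟨by linarith, by linarith, fun hG => ht3 (reg_of_NN hX hh hG)⟩
    · have e1 : C1 * T ≤ max C1 C3 * T := mul_le_mul_of_nonneg_right (le_max_left _ _) hT0.le
      refine mul_le_mul e1 (Real.exp_le_exp.mpr ?_) (Real.exp_pos _).le (by positivity)
      have e2 : min (c1 * κ) (2 * c3) * (h * Real.log T) ≤ c1 * κ * (h * Real.log T) :=
        mul_le_mul_of_nonneg_right (min_le_left _ _) hl
      linarith
  · have hm := h3 T hTT3
    have hlog2 : Real.log 2 ≤ η / 2 * Real.log T := by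
      have h5 : 2 * Real.log 2 / η ≤ Real.log T := by
        rw [Real.le_log_iff_exp_le hT0]; exact hTT4
      rw [div_le_iff₀ hη] at h5
      linarith
    refine (measure_mono ?_).trans (hm.trans (ENNReal.ofReal_le_ofReal ?_))
    · rintro t ⟨ht1, ht2, ht3⟩
      refine ⟨by linarith, by linarith, fun hG => ht3 ?_⟩
      exact reg_of_far hκ hη hT2' ht1 ht2 hh0p h100.le hh2 hlog2 hG
    · have e0 : T ^ (1 - c3) = T * Real.exp (-(c3 * Real.log T)) := by
        rw [Real.rpow_def_of_pos hT0, show Real.log T * (1 - c3) = Real.log T + -(c3 * Real.log T) by ring,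
          Real.exp_add, Real.exp_log hT0]
      rw [e0, ← mul_assoc]
      have e1 : C3 * T ≤ max C1 C3 * T := mul_le_mul_of_nonneg_right (le_max_right _ _) hT0.le
      refine mul_le_mul e1 (Real.exp_le_exp.mpr ?_) (Real.exp_pos _).le (by positivity)
      have e2 : min (c1 * κ) (2 * c3) * (h * Real.log T) ≤ 2 * c3 * (h * Real.log T) :=
        mul_le_mul_of_nonneg_right (min_le_right _ _) hl
      have e3 : 2 * c3 * (h * Real.log T) ≤ c3 * Real.log T := by
        have : h * Real.log T ≤ 1 / 2 * Real.log T := mul_le_mul_of_nonneg_right hh2 hlog0.le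
        nlinarith
      linarith

end

end Pool.Agent.K3h34.DL
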