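import Pool.Agent.K3h34.DX.Space
import Pool.Agent.R838.TW.Gro

set_option autoImplicit false

/-!
# The strict inequality `|X (z + h)| > |X (z - h)|` for symmetric entire functions
-/

namespace Pool.Agent.K3h34.DL

open Complex Filter Topology Metric Set Polynomial
open Pool.Agent.K3h34.DX
open Pool.Agent.R838.TW (Sy)
open Pool.Agent.Y22.LM (q q_eq q_nonneg norm_eval_pow4)

noncomputable section

/-- symmetric entire functions of order at most `3/2` with zeros in the strip `|Re z| ≤ 1/2` -/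
structure XS (X : ℂ → ℂ) : Prop where
  sy : Sy X
  strip : ∀ b : ℂ, X b = 0 → |b.re| ≤ 1 / 2
  zero : ∃ b, X b = 0

variable {X : ℂ → ℂ}

lemma XS.ent (hX : XS X) : Ent X := ⟨hX.sy.diff, hX.sy.ne⟩

lemma weak (hX : XS X) {t x h : ℝ} (hx : 0 ≤ x) (hh : 0 ≤ h)
    (hb : ∀ b : ℂ, X b = 0 → b.re ^ 2 ≤ h ^ 2 + x ^ 2 + (t - b.im) ^ 2) :
    ‖X (((x - h : ℝ) : ℂ) + t * I)‖ ≤ ‖X (((x + h : ℝ) : ℂ) + t * I)‖ := by
  obtain ⟨R, hR1, hR2, hR3⟩ := hX.sy.app
  have hN : ∀ N, ‖(R N).eval (((x - h : ℝ) : ℂ) + t * I)‖ ≤ ‖(R N).eval (((x + h : ℝ) : ℂ) + t * I)‖ := by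
    intro N
    have hsym : ∀ h : ℝ, ‖(R N).eval (-h + t * I : ℂ)‖ = ‖(R N).eval (h + t * I : ℂ)‖ := fun h => hR3 N h t
    have h4 : ‖(R N).eval (((x - h : ℝ) : ℂ) + t * I)‖ ^ 4 ≤ ‖(R N).eval (((x + h : ℝ) : ℂ) + t * I)‖ ^ 4 := by
      rw [norm_eval_pow4 hsym, norm_eval_pow4 hsym]
      refine mul_le_mul_of_nonneg_left ?_ (by positivity)
      refine Multiset.prod_map_le_prod_map₀ _ _ (fun b _ => q_nonneg _ _ _) fun b hbr => ?_
      have h1 := q_diff b.re (t - b.im) x h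
      have h2 : b.re ^ 2 ≤ h ^ 2 + x ^ 2 + (t - b.im) ^ 2 := by
        rcases hR1 N b (Polynomial.isRoot_of_mem_roots hbr) with h5 | h5
        · exact hb b h5
        · rw [h5]; nlinarith [sq_nonneg h, sq_nonneg x, sq_nonneg (t - b.im)]
      have h3 : 0 ≤ 8 * x * h * (h ^ 2 + x ^ 2 + (t - b.im) ^ 2 - b.re ^ 2) := by
        have : 0 ≤ h ^ 2 + x ^ 2 + (t - b.im) ^ 2 - b.re ^ 2 := by linarith
        positivity
      linarith
    exact (pow_le_pow_iff_left₀ (norm_nonneg _) (norm_nonneg _) (by norm_num)).1 h4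
  have h3 : ‖X (((x - h : ℝ) : ℂ) + t * I) * X (((x - h : ℝ) : ℂ) + t * I)‖ ≤
      ‖X (((x + h : ℝ) : ℂ) + t * I) * X (((x + h : ℝ) : ℂ) + t * I)‖ :=
    le_of_tendsto_of_tendsto' (hR2 _).norm (hR2 _).norm hN
  rw [norm_mul, norm_mul] at h3
  exact abs_le_of_sq_le_sq' (by nlinarith) (norm_nonneg _) |>.2

lemma weak' (hX : XS X) {z : ℂ} {h : ℝ} (hx : 0 ≤ z.re) (hh : 0 ≤ h)
    (hb : ∀ b : ℂ, X b = 0 → b.re ^ 2 ≤ h ^ 2 + z.re ^ 2 + (z.im - b.im) ^ 2) :
    ‖X (z - h)‖ ≤ ‖X (z + h)‖ := by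
  have h1 := weak hX (t := z.im) hx hh hb
  have e1 : (((z.re - h : ℝ) : ℂ) + z.im * I) = z - h := by
    apply Complex.ext <;> simp
  have e2 : (((z.re + h : ℝ) : ℂ) + z.im * I) = z + h := by
    apply Complex.ext <;> simp
  rwa [e1, e2] at h1

lemma nbhd (hX : XS X) {z : ℂ} {h : ℝ}
    (hb : ∀ b : ℂ, X b = 0 → b.re ^ 2 < h ^ 2 + z.re ^ 2 + (z.im - b.im) ^ 2) :
    ∀ᶠ w : ℂ in 𝓝 z, ∀ b : ℂ, X b = 0 → b.re ^ 2 < h ^ 2 + w.re ^ 2 + (w.im - b.im) ^ 2 := by
  obtain ⟨Z, hZ⟩ := hX.ent.exS (U := ball (z.im * I) 4) isBounded_ball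
  have h1 : ∀ᶠ w : ℂ in 𝓝 z, ∀ b ∈ Z, b.re ^ 2 < h ^ 2 + w.re ^ 2 + (w.im - b.im) ^ 2 := by
    rw [Filter.eventually_all_finset]
    intro b hbZ
    have hc : Continuous (fun w : ℂ => h ^ 2 + w.re ^ 2 + (w.im - b.im) ^ 2) := by
      have := Complex.continuous_re
      have := Complex.continuous_im
      fun_prop
    exact (hc.tendsto z).eventually (lt_mem_nhds (hb b ((hZ b).1 hbZ).2))
  have h2 : ∀ᶠ w : ℂ in 𝓝 z, w.im ∈ Ioo (z.im - 1) (z.im + 1) :=
    (Complex.continuous_im.tendsto z).eventually (Ioo_mem_nhds (by linarith) (by linarith))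
  filter_upwards [h1, h2] with w h1 h2 b hb0
  have hs := hX.strip b hb0
  rcases le_or_gt |b.im - z.im| 2 with h3 | h3
  · refine h1 b ((hZ b).2 ⟨subset_closure ?_, hb0⟩)
    rw [mem_ball, dist_eq_norm]
    refine (Complex.norm_le_abs_re_add_abs_im _).trans_lt ?_
    simp only [Complex.sub_re, Complex.mul_re, Complex.ofReal_re, Complex.I_re, mul_zero, Complex.ofReal_im,
      Complex.I_im, mul_one, sub_self, sub_zero, Complex.sub_im, Complex.mul_im, add_zero]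
    linarith
  · have h4 : b.re ^ 2 ≤ (1 / 2) ^ 2 := by
      rw [← sq_abs]
      exact pow_le_pow_left₀ (abs_nonneg _) hs 2
    have h5 : 1 ≤ (w.im - b.im) ^ 2 := by
      rw [lt_abs] at h3
      rcases h3 with h3 | h3
      · nlinarith [h2.2, h2.1]
      · nlinarith [h2.2, h2.1]
    nlinarith [sq_nonneg h, sq_nonneg w.re]

/-- the strict inequality -/
theorem strict' (hX : XS X) {z : ℂ} {h : ℝ} (hx : 0 < z.re) (hh : 0 < h)
    (hb : ∀ b : ℂ, X b = 0 → b.re ^ 2 < h ^ 2 + z.re ^ 2 + (z.im - b.im) ^ 2) :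
    ‖X (z - h)‖ < ‖X (z + h)‖ := by
  have hne : ∀ w : ℂ, 0 < w.re → (∀ b, X b = 0 → b.re ^ 2 < h ^ 2 + w.re ^ 2 + (w.im - b.im) ^ 2) →
      X (w + h) ≠ 0 := by
    intro w hw hb h0
    have h1 := hb _ h0
    simp at h1
    nlinarith [mul_pos hw hh]
  have hev := nbhd hX hb
  have hre : ∀ᶠ w : ℂ in 𝓝 z, 0 < w.re := (Complex.continuous_re.tendsto z).eventually (lt_mem_nhds hx)
  by_contra hcon
  push Not at hcon
  obtain ⟨u, hu⟩ : ∃ u : ℂ → ℂ, u = fun w => X (w - h) / X (w + h) := ⟨_, rfl⟩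
  have d1 : Differentiable ℂ (fun w : ℂ => X (w - h)) := hX.sy.diff.comp (by fun_prop)
  have d2 : Differentiable ℂ (fun w : ℂ => X (w + h)) := hX.sy.diff.comp (by fun_prop)
  have hud : ∀ᶠ w in 𝓝 z, DifferentiableAt ℂ u w := by
    filter_upwards [hev, hre] with w h1 h2
    rw [hu]
    exact (d1 w).div (d2 w) (hne w h2 h1)
  have hle : ∀ᶠ w in 𝓝 z, ‖u w‖ ≤ 1 := by
    filter_upwards [hev, hre] with w h1 h2
    have h3 := weak' hX h2.le hh.le (fun b hb => (h1 b hb).le)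
    have h4 : 0 < ‖X (w + h)‖ := norm_pos_iff.2 (hne w h2 h1)
    rw [hu]
    simp only
    rw [norm_div, div_le_one h4]
    exact h3
  have hz1 : ‖u z‖ = 1 := by
    have h4 : 0 < ‖X (z + h)‖ := norm_pos_iff.2 (hne z hx hb)
    have h5 := weak' hX hx.le hh.le (fun b hb0 => (hb b hb0).le)
    rw [hu]
    simp only
    rw [norm_div]
    exact (div_eq_one_iff_eq h4.ne').2 (le_antisymm h5 hcon)
  have hmax : IsLocalMax (norm ∘ u) z := by
    filter_upwards [hle] with w hw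
    simp only [Function.comp_apply, hz1]
    exact hw
  have hconst := Complex.eventually_eq_of_isLocalMax_norm hud hmax
  have hid : ∀ w, X (w - h) = u z * X (w + h) := by
    have han : AnalyticOnNhd ℂ (fun w => X (w - h) - u z * X (w + h)) univ := fun w _ =>
      (d1.sub (d2.const_mul (u z))).analyticAt w
    have h0 : (fun w => X (w - h) - u z * X (w + h)) =ᶠ[𝓝 z] 0 := by
      filter_upwards [hconst, hev, hre] with w h1 h2 h3
      have h4 := hne w h3 h2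
      simp only [Pi.zero_apply]
      rw [← h1, hu]
      simp only
      rw [div_mul_cancel₀ _ h4, sub_self]
    have h5 := han.eqOn_zero_of_preconnected_of_eventuallyEq_zero isPreconnected_univ (mem_univ z) h0
    intro w
    exact sub_eq_zero.1 (h5 (mem_univ w))
  obtain ⟨b, hb0⟩ := hX.zero
  have hall : ∀ n : ℕ, X (b - n * (2 * h)) = 0 := by
    intro n
    induction n with
    | zero => simpa using hb0
    | succ n ih =>
      have h1 := hid (b - n * (2 * h) - h)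
      rw [show (b - n * (2 * h) - h + h : ℂ) = b - n * (2 * h) by ring, ih, mul_zero] at h1
      rw [← h1]
      congr 1
      push_cast
      ring
  obtain ⟨n, hn⟩ := exists_nat_gt ((|b.re| + 1) / (2 * h))
  rw [div_lt_iff₀ (by positivity)] at hn
  have h1 := hX.strip _ (hall n)
  have h2 : (b - (n : ℂ) * (2 * (h : ℂ))).re = b.re - n * (2 * h) := by
    have : ((n : ℂ) * (2 * (h : ℂ))) = ((n * (2 * h) : ℝ) : ℂ) := by push_cast; ring
    rw [this, Complex.sub_re, Complex.ofReal_re]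
  rw [h2, abs_le] at h1
  linarith [le_abs_self b.re, h1.1]

/-- the shifted function -/
lemma sh_X (hX : XS X) (h : ℝ) (z : ℂ) : sh (fun z => X (z + h)) z = X (z - h) := by
  unfold sh
  simp only
  have e : -(starRingEnd ℂ) z + (h : ℂ) = -((starRingEnd ℂ) (z - h)) := by
    rw [map_sub, Complex.conj_ofReal]; ring
  rw [e, hX.sy.symm, Complex.conj_conj]

end

end Pool.Agent.K3h34.DL
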