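import Pool.Agent.K3h34.DL.Final
import Pool.Agent.R838.TW.Pl

set_option autoImplicit false

/-!
# All the statements for a function with the properties `PL`
-/

namespace Pool.Agent.K3h34.DL

open Complex Filter Topology MeasureTheory Set
open Pool.Agent.R838.TW (PL Sy)
open Pool.Agent.Y693.GL (GoodY)
open Pool.Agent.Y671.GL (TopL)

noncomputable section

lemma xs_of_PL {κ : ℝ} (hκ : 1 / 2 ≤ κ) {X : ℂ → ℂ} (h : PL κ X) : XS X :=
  ⟨h.sy, h.strip, h.zero hκ⟩

end

end Pool.Agent.K3h34.DL
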